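import Pool.Agent.Lib.TG_h45.Bpf3
import Mathlib.FieldTheory.IntermediateField.Adjoin.Algebra
import Mathlib.RingTheory.Localization.Integral
import Mathlib.Algebra.Polynomial.Lifts
import Mathlib.FieldTheory.IsAlgClosed.Basic

/-!
# TANK G, block B, row FIN (helper45)
-/

set_option autoImplicit false

namespace Pool.Agent.TG

open MvPolynomial

universe u

section FIN

variable {k K : Type u} [Field k] [Field K] [Algebra k K] {V : ValuationSubring K}
  {S T : Submodule k K}

open scoped IntermediateField.algebraAdjoinAdjoin in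
/-- integral multiples with one polynomial denominator -/
theorem exists_int_mult {n : ℕ} (x : Fin n → K)
    (halg : Algebra.IsAlgebraic (IntermediateField.adjoin k (Set.range x)) K) (s : Finset K) :
    ∃ G : MvPolynomial (Fin n) k, aeval x G ≠ 0 ∧ ∀ z ∈ s,
      ∃ Q : Polynomial (MvPolynomial (Fin n) k), Q.Monic ∧
        Q.eval₂ (aeval x : MvPolynomial (Fin n) k →ₐ[k] K).toRingHom (aeval x G * z) = 0 := by
  classical
  have halg' : Algebra.IsAlgebraic (Algebra.adjoin k (Set.range x)) K :=
    (IsFractionRing.comap_isAlgebraic_iff (A := Algebra.adjoin k (Set.range x))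
      (K := IntermediateField.adjoin k (Set.range x)) (C := K)).2 halg
  obtain ⟨y, hy0, hy⟩ := Algebra.IsAlgebraic.exists_integral_multiples
    (Algebra.adjoin k (Set.range x)) (A := K) s
  have hmem : ∀ G : MvPolynomial (Fin n) k, aeval x G ∈ Algebra.adjoin k (Set.range x) := by
    intro G
    rw [Algebra.adjoin_range_eq_range_aeval]
    exact ⟨G, rfl⟩
  let φ : MvPolynomial (Fin n) k →ₐ[k] Algebra.adjoin k (Set.range x) :=
    (aeval x).codRestrict _ hmem
  have hφ : Function.Surjective φ := by
    rintro ⟨a, ha⟩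
    have ha' := ha
    rw [Algebra.adjoin_range_eq_range_aeval] at ha'
    obtain ⟨G, hG⟩ := ha'
    exact ⟨G, Subtype.ext hG⟩
  obtain ⟨G, hG⟩ := hφ y
  have hGy : aeval x G = (y : K) := congrArg Subtype.val hG
  refine ⟨G, ?_, fun z hz => ?_⟩
  · rw [hGy]
    exact fun h => hy0 (Subtype.ext h)
  · obtain ⟨p, hp, hpz⟩ := hy z hz
    have hlift : p ∈ Polynomial.lifts φ.toRingHom := by
      rw [Polynomial.mem_lifts]
      exact Polynomial.map_surjective φ.toRingHom hφ p
    obtain ⟨Q, hQ, -, hQm⟩ := Polynomial.lifts_and_natDegree_eq_and_monic hlift hp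
    refine ⟨Q, hQm, ?_⟩
    rw [← hQ, Polynomial.eval₂_map, Algebra.smul_def] at hpz
    rw [hGy]
    exact hpz

/-- the residues of an integral element over a point `c` -/
theorem exists_root [IsAlgClosed k] (hV : Ov k V) {n : ℕ} {x : Fin n → K} {c : Fin n → k}
    (hx : ∀ i, V.valuation (x i - algebraMap k K (c i)) < 1)
    {Q : Polynomial (MvPolynomial (Fin n) k)} (hQ : Q.Monic) {w : K} (hw : w ∈ V)
    (hQw : Q.eval₂ (aeval x : MvPolynomial (Fin n) k →ₐ[k] K).toRingHom w = 0) :
    ∃ r ∈ (Q.map (eval c)).roots, V.valuation (w - algebraMap k K r) < 1 := by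
  have hc : ∀ i, x i ∈ V := by
    intro i
    have h1 : x i = (x i - algebraMap k K (c i)) + algebraMap k K (c i) := by ring
    rw [h1]
    exact V.add_mem _ _ ((V.valuation_le_one_iff _).1 (hx i).le) (hV _)
  let ι : k →+* V := (algebraMap k K).codRestrict V.toSubring hV
  let ψ : MvPolynomial (Fin n) k →+* V := eval₂Hom ι (fun i => ⟨x i, hc i⟩)
  have hψ : ∀ P, (ψ P : K) = aeval x P := by
    intro P
    have h1 : (V.subtype.comp ψ) = (aeval x : MvPolynomial (Fin n) k →ₐ[k] K).toRingHom := by
      refine MvPolynomial.ringHom_ext (fun a => ?_) (fun i => ?_)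
      · simp [ψ, ι]
      · simp [ψ]
    exact congrArg (fun F => F P) h1
  let res := IsLocalRing.residue V
  have hres : res.comp ψ = (res.comp ι).comp (eval c) := by
    refine MvPolynomial.ringHom_ext (fun a => ?_) (fun i => ?_)
    · simp [ψ]
    · simp only [RingHom.comp_apply, ψ, eval₂Hom_X', eval_X]
      rw [← sub_eq_zero, ← map_sub, IsLocalRing.residue_eq_zero_iff,
        ValuationSubring.valuation_lt_one_iff]
      exact hx i
  have h1 : Q.eval₂ ψ (⟨w, hw⟩ : V) = 0 := by
    apply Subtype.ext
    have h2 : V.subtype (Q.eval₂ ψ (⟨w, hw⟩ : V)) = Q.eval₂ (V.subtype.comp ψ) w := by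
      rw [Polynomial.hom_eval₂]; rfl
    have h3 : (V.subtype.comp ψ) = (aeval x : MvPolynomial (Fin n) k →ₐ[k] K).toRingHom :=
      RingHom.ext hψ
    rw [h3, hQw] at h2
    exact h2
  have h2 : Q.eval₂ (res.comp ψ) (res ⟨w, hw⟩) = 0 := by
    rw [← Polynomial.hom_eval₂, h1, map_zero]
  rw [hres, ← Polynomial.eval₂_map] at h2
  have hm : (Q.map (eval c)).Monic := hQ.map _
  have hs := (IsAlgClosed.splits (Q.map (eval c))).eq_prod_roots_of_monic hm
  rw [hs] at h2
  rw [← Polynomial.coe_eval₂RingHom, map_multiset_prod, Multiset.map_map, Multiset.prod_eq_zero_iff] at h2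
  rw [Multiset.mem_map] at h2
  obtain ⟨r, hr, hr0⟩ := h2
  refine ⟨r, hr, ?_⟩
  simp only [Function.comp_apply, Polynomial.coe_eval₂RingHom, Polynomial.eval₂_sub,
    Polynomial.eval₂_X, Polynomial.eval₂_C, RingHom.comp_apply] at hr0
  rw [← map_sub, IsLocalRing.residue_eq_zero_iff, ValuationSubring.valuation_lt_one_iff] at hr0
  exact hr0

theorem val_sum_lt {ι : Type*} (t : Finset ι) (f : ι → K) (h : ∀ i ∈ t, V.valuation (f i) < 1) :
    V.valuation (∑ i ∈ t, f i) < 1 := by
  classical
  induction t using Finset.induction_on with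
  | empty => simp
  | insert a t ha ih =>
    rw [Finset.sum_insert ha]
    exact (V.valuation.map_add _ _).trans_lt (max_lt (h a (Finset.mem_insert_self _ _))
      (ih fun i hi => h i (Finset.mem_insert_of_mem hi)))

theorem val_const (hV : Ov k V) {a : k} (ha : a ≠ 0) : V.valuation (algebraMap k K a) = 1 := by
  have h1 : V.valuation (algebraMap k K a) ≤ 1 := (V.valuation_le_one_iff _).2 (hV a)
  have h2 : V.valuation (algebraMap k K a⁻¹) ≤ 1 := (V.valuation_le_one_iff _).2 (hV a⁻¹)
  refine le_antisymm h1 ?_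
  rw [map_inv₀, map_inv₀] at h2
  have h3 : V.valuation (algebraMap k K a) ≠ 0 := by
    rw [Valuation.ne_zero_iff]
    exact (map_ne_zero_iff _ (algebraMap k K).injective).2 ha
  exact (inv_le_one₀ (zero_lt_iff.2 h3)).1 h2

/-- a minimal element divided by `f` is a unit iff `f` is minimal -/
theorem IsMin.of_unit {f g : K} (hg : IsMin V S g) (hf : f ∈ S) (h : V.valuation (f / g) = 1) :
    IsMin V S f := by
  have hf0 : f ≠ 0 := by
    rintro rfl
    rw [zero_div, map_zero] at h
    exact zero_ne_one h
  refine ⟨hf, hf0, fun a ha => ?_⟩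
  have h1 : a / f = (a / g) / (f / g) := by
    rw [div_div_div_cancel_right₀ hg.ne]
  rw [h1, ← V.valuation_le_one_iff, map_div₀, h, div_one, V.valuation_le_one_iff]
  exact hg.div a ha

theorem IsMin.val_lt {f g : K} (hg : IsMin V S g) (hf : f ∈ S) (h : ¬ IsMin V S f) :
    V.valuation (f / g) < 1 :=
  lt_of_le_of_ne ((V.valuation_le_one_iff _).2 (hg.div f hf)) fun h1 => h (hg.of_unit hf h1)

theorem mem_of_root (hV : Ov k V) {n : ℕ} {x : Fin n → K} (hx : ∀ i, x i ∈ V)
    {Q : Polynomial (MvPolynomial (Fin n) k)} (hQ : Q.Monic) {w : K}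
    (hQw : Q.eval₂ (aeval x : MvPolynomial (Fin n) k →ₐ[k] K).toRingHom w = 0) : w ∈ V := by
  let ι : k →+* V := (algebraMap k K).codRestrict V.toSubring hV
  let ψ : MvPolynomial (Fin n) k →+* V := eval₂Hom ι (fun i => ⟨x i, hx i⟩)
  have h1 : (algebraMap V K).comp ψ = (aeval x : MvPolynomial (Fin n) k →ₐ[k] K).toRingHom := by
    refine MvPolynomial.ringHom_ext (fun a => ?_) (fun i => ?_)
    · simp only [RingHom.comp_apply, ψ, eval₂Hom_C]
      rw [AlgHom.toRingHom_eq_coe, RingHom.coe_coe, algHom_C]
      rfl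
    · simp only [RingHom.comp_apply, ψ, eval₂Hom_X']
      rw [AlgHom.toRingHom_eq_coe, RingHom.coe_coe, aeval_X]
      rfl
  have h2 : IsIntegral V w := by
    refine ⟨Q.map ψ, hQ.map ψ, ?_⟩
    rw [Polynomial.eval₂_map, h1]
    exact hQw
  obtain ⟨y, hy⟩ := IsIntegrallyClosed.isIntegral_iff.1 h2
  rw [← hy]
  exact y.2

/-- **FIN.** Over all `c` outside a hypersurface the tuple `(f₀; f'_i - c_i f'_0)` is base point
free in `S` for all `f₀ ∈ S` outside finitely many proper subspaces. -/
theorem fin_generic [IsAlgClosed k] {n : ℕ} {S S' : Submodule k K} (hS : S.FG) (hle : S' ≤ S)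
    (hspan : ∃ s₀ : K, S ≤ S' ⊔ Submodule.span k {s₀}) {f' : Fin (n + 1) → K} (hf' : BpfT S' f')
    (h0 : f' 0 ≠ 0) (halg : Algebra.IsAlgebraic
      (IntermediateField.adjoin k (Set.range fun i : Fin n => f' i.succ / f' 0)) K) :
    ∃ h : MvPolynomial (Fin n) k, h ≠ 0 ∧ ∀ c : Fin n → k, eval c h ≠ 0 →
      ∃ HH : Finset (Submodule k K), (∀ H ∈ HH, ¬ S ≤ H) ∧
        (∀ V : ValuationSubring K, Ov k V →
          (∀ i : Fin n, ¬ IsMin V S (f' i.succ - c i • f' 0)) →
          ∃ H ∈ HH, ∀ f ∈ S, f ∉ H → IsMin V S f) ∧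
        (∀ V : ValuationSubring K, Ov k V →
          (∀ i : Fin n, ¬ IsMin V S' (f' i.succ - c i • f' 0)) → IsMin V S (f' 0)) ∧
        ∀ f₀ ∈ S, (∀ H ∈ HH, f₀ ∉ H) →
          BpfT S (Fin.cons f₀ fun i : Fin n => f' i.succ - c i • f' 0) := by
  classical
  have hSne : S ≠ ⊥ := by
    rintro rfl
    exact h0 ((Submodule.mem_bot k).1 (hle (hf'.1 0)))
  have hSm : IsModel S := ⟨hS, hSne⟩
  have : Module.Finite k S := Module.Finite.iff_fg.2 hS
  let b := Module.finBasis k S
  obtain ⟨G, hG0, hG⟩ := exists_int_mult (fun i : Fin n => f' i.succ / f' 0) halg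
    (Finset.univ.image fun j => (b j : K) / f' 0)
  have hG' : ∀ j, ∃ Q : Polynomial (MvPolynomial (Fin n) k), Q.Monic ∧
      Q.eval₂ (aeval (fun i : Fin n => f' i.succ / f' 0) :
        MvPolynomial (Fin n) k →ₐ[k] K).toRingHom
        (aeval (fun i : Fin n => f' i.succ / f' 0) G * ((b j : K) / f' 0)) = 0 := fun j =>
    hG _ (Finset.mem_image_of_mem _ (Finset.mem_univ j))
  choose Q hQm hQ using hG'
  refine ⟨G, fun h => hG0 (by rw [h, map_zero]), fun c hc => ?_⟩
  let R : Fin (Module.finrank k S) → Finset k := fun j =>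
    ((Q j).map (eval c)).roots.toFinset.image fun r => r / eval c G
  let z : (Fin (Module.finrank k S) → k) → (S →ₗ[k] k) := fun r => b.constr k r
  let H : (Fin (Module.finrank k S) → k) → Submodule k K := fun r =>
    (LinearMap.ker (z r)).map S.subtype
  let HH : Finset (Submodule k K) :=
    (if S ≤ S' then ∅ else {S'}) ∪ ((Fintype.piFinset R).filter fun r => z r ≠ 0).image H
  have hHH : ∀ A ∈ HH, ¬ S ≤ A := by
    intro A hA hSA
    rw [Finset.mem_union] at hA
    rcases hA with hA | hA
    · split_ifs at hA with h1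
      · simp at hA
      · rw [Finset.mem_singleton] at hA
        exact h1 (hA ▸ hSA)
    · rw [Finset.mem_image] at hA
      obtain ⟨r, hr, rfl⟩ := hA
      rw [Finset.mem_filter] at hr
      refine hr.2 (LinearMap.ext fun x => ?_)
      obtain ⟨y, hy, hyx⟩ := hSA x.2
      have : y = x := Subtype.ext hyx
      rw [← this]
      exact hy
  have hkey : ∀ V : ValuationSubring K, Ov k V →
      (∀ i : Fin n, ¬ IsMin V S (f' i.succ - c i • f' 0)) →
      ∃ A ∈ HH, ∀ f ∈ S, f ∉ A → IsMin V S f := by
    intro V hV hno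
    by_cases hA : ∃ a ∈ S', IsMin V S a
    · -- Case B
      obtain ⟨a, haS', ha⟩ := hA
      have hmin : ∀ g, IsMin V S' g → IsMin V S g := by
        intro g hg
        refine ha.of_unit (hle hg.mem) ?_
        refine le_antisymm ((V.valuation_le_one_iff _).2 (ha.div g (hle hg.mem))) ?_
        have h1 := (V.valuation_le_one_iff _).2 (hg.div a haS')
        rw [map_div₀] at h1 ⊢
        have hg0 : V.valuation g ≠ 0 := (Valuation.ne_zero_iff _).2 hg.ne
        have ha0 : V.valuation a ≠ 0 := (Valuation.ne_zero_iff _).2 ha.ne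
        rw [div_le_one₀ (zero_lt_iff.2 hg0)] at h1
        rwa [one_le_div₀ (zero_lt_iff.2 ha0)]
      obtain ⟨j, hj⟩ := hf'.2 V hV
      have hf0 : IsMin V S (f' 0) := by
        by_contra hcon
        have hj0 : j ≠ 0 := by
          rintro rfl
          exact hcon (hmin _ hj)
        obtain ⟨i, rfl⟩ := Fin.exists_succ_eq.2 hj0
        have hji := hmin _ hj
        refine hno i (hji.of_unit (S.sub_mem hji.mem (S.smul_mem _ (hle (hf'.1 0)))) ?_)
        have h1 := hji.val_lt (hle (hf'.1 0)) hcon
        rw [sub_div, div_self hji.ne]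
        have h2 : V.valuation (c i • f' 0 / f' i.succ) < 1 := by
          rw [Algebra.smul_def, mul_div_assoc, map_mul]
          exact mul_lt_one_of_nonneg_of_lt_one_right ((V.valuation_le_one_iff _).2 (hV _))
            zero_le h1
        rw [Valuation.map_sub_eq_of_lt_left]
        · exact map_one _
        · rwa [map_one]
      have hx : ∀ i : Fin n, V.valuation (f' i.succ / f' 0 - algebraMap k K (c i)) < 1 := by
        intro i
        have h1 := hf0.val_lt (S.sub_mem (hle (hf'.1 i.succ)) (S.smul_mem (c i) (hle (hf'.1 0))))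
          (hno i)
        rwa [sub_div, Algebra.smul_def, mul_div_assoc, div_self h0, mul_one] at h1
      have hxV : ∀ i : Fin n, f' i.succ / f' 0 ∈ V := fun i => hf0.div _ (hle (hf'.1 _))
      have hGV : aeval (fun i : Fin n => f' i.succ / f' 0) G ∈ V := by
        have h1 : Algebra.adjoin k (Set.range fun i : Fin n => f' i.succ / f' 0) ≤
            ({ V.toSubring with algebraMap_mem' := hV } : Subalgebra k K) := by
          refine Algebra.adjoin_le ?_
          rintro _ ⟨i, rfl⟩
          exact hxV i
        refine h1 ?_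
        rw [Algebra.adjoin_range_eq_range_aeval]
        exact ⟨G, rfl⟩
      have hGc : V.valuation (aeval (fun i : Fin n => f' i.succ / f' 0) G -
          algebraMap k K (eval c G)) < 1 := by
        obtain ⟨r, hr, hr'⟩ := exists_root (Q := Polynomial.X - Polynomial.C G) hV hx
          (Polynomial.monic_X_sub_C G) hGV (by simp)
        simp only [Polynomial.map_sub, Polynomial.map_X, Polynomial.map_C,
          Polynomial.roots_X_sub_C, Multiset.mem_singleton] at hr
        rwa [hr] at hr'
      have hres : ∀ j, ∃ r ∈ R j, V.valuation ((b j : K) / f' 0 - algebraMap k K r) < 1 := by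
        intro j
        have hbV : (b j : K) / f' 0 ∈ V := hf0.div _ (b j).2
        obtain ⟨r, hr, hr'⟩ := exists_root hV hx (hQm j) (V.mul_mem _ _ hGV hbV) (hQ j)
        refine ⟨r / eval c G, Finset.mem_image.2 ⟨r, Multiset.mem_toFinset.2 hr, rfl⟩, ?_⟩
        have hcu := val_const (V := V) hV hc
        have h1 : V.valuation (algebraMap k K (eval c G) * ((b j : K) / f' 0) -
            algebraMap k K r) < 1 := by
          have h2 : algebraMap k K (eval c G) * ((b j : K) / f' 0) - algebraMap k K r =
              (aeval (fun i : Fin n => f' i.succ / f' 0) G * ((b j : K) / f' 0) -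
                algebraMap k K r) -
              (aeval (fun i : Fin n => f' i.succ / f' 0) G - algebraMap k K (eval c G)) *
                ((b j : K) / f' 0) := by ring
          rw [h2]
          refine (Valuation.map_sub _ _ _).trans_lt (max_lt hr' ?_)
          rw [map_mul]
          exact mul_lt_one_of_lt_of_le hGc ((V.valuation_le_one_iff _).2 hbV)
        have h3 : (b j : K) / f' 0 - algebraMap k K (r / eval c G) =
            (algebraMap k K (eval c G) * ((b j : K) / f' 0) - algebraMap k K r) /
              algebraMap k K (eval c G) := by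
          have hne : algebraMap k K (eval c G) ≠ 0 :=
            (map_ne_zero_iff _ (algebraMap k K).injective).2 hc
          rw [map_div₀]
          field_simp
        rw [h3, map_div₀, hcu, div_one]
        exact h1
      choose r hrR hr using hres
      have hz : ∀ f : S, V.valuation ((f : K) / f' 0 - algebraMap k K (z r f)) < 1 := by
        intro f
        have h1 : (f : K) = ∑ j, b.repr f j • (b j : K) := by
          have h := congrArg Subtype.val (b.sum_repr f)
          rw [Submodule.coe_sum] at h
          exact h.symm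
        have h2 : z r f = ∑ j, b.repr f j * r j := by
          simp only [z, Module.Basis.constr_apply_fintype, Module.Basis.equivFun_apply, smul_eq_mul]
        have h3 : (f : K) / f' 0 - algebraMap k K (z r f) =
            ∑ j, algebraMap k K (b.repr f j) * ((b j : K) / f' 0 - algebraMap k K (r j)) := by
          rw [h2, h1, Finset.sum_div, map_sum, ← Finset.sum_sub_distrib]
          refine Finset.sum_congr rfl fun j _ => ?_
          rw [Algebra.smul_def, map_mul]
          ring
        rw [h3]
        refine val_sum_lt _ _ fun j _ => ?_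
        rw [map_mul]
        exact mul_lt_one_of_nonneg_of_lt_one_right ((V.valuation_le_one_iff _).2 (hV _))
          zero_le (hr j)
      have hzne : z r ≠ 0 := by
        intro hz0
        have h1 := hz ⟨f' 0, hf0.mem⟩
        rw [hz0, LinearMap.zero_apply, map_zero, sub_zero, div_self h0, map_one] at h1
        exact lt_irrefl _ h1
      refine ⟨H r, Finset.mem_union_right _ (Finset.mem_image_of_mem _
        (Finset.mem_filter.2 ⟨Fintype.mem_piFinset.2 hrR, hzne⟩)), fun f hf hfH => ?_⟩
      have hzf : z r ⟨f, hf⟩ ≠ 0 := fun h1 => hfH ⟨⟨f, hf⟩, h1, rfl⟩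
      refine hf0.of_unit hf ?_
      have h1 := hz ⟨f, hf⟩
      have h2 := val_const (V := V) hV hzf
      have h3 : f / f' 0 = (f / f' 0 - algebraMap k K (z r ⟨f, hf⟩)) +
        algebraMap k K (z r ⟨f, hf⟩) := by ring
      rw [h3, Valuation.map_add_eq_of_lt_right, h2]
      rwa [h2]
    · -- Case A
      push Not at hA
      obtain ⟨s₀, hs₀⟩ := hspan
      obtain ⟨a, ha⟩ := exists_isMin (V := V) hV hSm
      have hSS : ¬ S ≤ S' := fun h1 => hA a (h1 ha.mem) ha
      refine ⟨S', Finset.mem_union_left _ (by rw [if_neg hSS]; exact Finset.mem_singleton_self _),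
        fun f hf hfS' => ?_⟩
      by_contra hcon
      obtain ⟨u, hu, v, hv, huv⟩ := Submodule.mem_sup.1 (hs₀ hf)
      obtain ⟨u', hu', v', hv', huv'⟩ := Submodule.mem_sup.1 (hs₀ ha.mem)
      obtain ⟨α, rfl⟩ := Submodule.mem_span_singleton.1 hv
      obtain ⟨β, rfl⟩ := Submodule.mem_span_singleton.1 hv'
      have hα : α ≠ 0 := by
        rintro rfl
        rw [zero_smul, add_zero] at huv
        exact hfS' (huv ▸ hu)
      have hlt1 := ha.val_lt hf hcon
      have hlt2 := ha.val_lt (hle hu) (hA u hu)
      have hlt3 := ha.val_lt (hle hu') (hA u' hu')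
      have h4 : (1 : K) = (u' / a) + algebraMap k K (β / α) * (f / a - u / a) := by
        have h5 : s₀ = algebraMap k K α⁻¹ * (f - u) := by
          rw [← huv, add_sub_cancel_left, Algebra.smul_def, ← mul_assoc, ← map_mul,
            inv_mul_cancel₀ hα, map_one, one_mul]
        have h6 : a = u' + algebraMap k K β * s₀ := by
          rw [← Algebra.smul_def]; exact huv'.symm
        rw [h5] at h6
        have ha0 := ha.ne
        have hα' : algebraMap k K α ≠ 0 := (map_ne_zero_iff _ (algebraMap k K).injective).2 hα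
        rw [map_inv₀] at h6
        rw [map_div₀]
        field_simp
        field_simp at h6
        linear_combination h6
      have h7 : V.valuation (1 : K) < 1 := by
        rw [h4]
        refine (V.valuation.map_add _ _).trans_lt (max_lt hlt3 ?_)
        rw [map_mul]
        exact mul_lt_one_of_nonneg_of_lt_one_right ((V.valuation_le_one_iff _).2 (hV _))
          zero_le ((Valuation.map_sub _ _ _).trans_lt (max_lt hlt1 hlt2))
      rw [map_one] at h7
      exact lt_irrefl _ h7
  have hkey2 : ∀ V : ValuationSubring K, Ov k V →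
      (∀ i : Fin n, ¬ IsMin V S' (f' i.succ - c i • f' 0)) → IsMin V S (f' 0) := by
    intro V hV hno
    obtain ⟨j, hj⟩ := hf'.2 V hV
    have hf0 : IsMin V S' (f' 0) := by
      by_contra hcon
      have hj0 : j ≠ 0 := by
        rintro rfl
        exact hcon hj
      obtain ⟨i, rfl⟩ := Fin.exists_succ_eq.2 hj0
      refine hno i (hj.of_unit (S'.sub_mem hj.mem (S'.smul_mem _ (hf'.1 0))) ?_)
      have h1 := hj.val_lt (hf'.1 0) hcon
      rw [sub_div, div_self hj.ne]
      have h2 : V.valuation (c i • f' 0 / f' i.succ) < 1 := by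
        rw [Algebra.smul_def, mul_div_assoc, map_mul]
        exact mul_lt_one_of_nonneg_of_lt_one_right ((V.valuation_le_one_iff _).2 (hV _))
          zero_le h1
      rw [Valuation.map_sub_eq_of_lt_left]
      · exact map_one _
      · rwa [map_one]
    have hx : ∀ i : Fin n, V.valuation (f' i.succ / f' 0 - algebraMap k K (c i)) < 1 := by
      intro i
      have h1 := hf0.val_lt (S'.sub_mem (hf'.1 i.succ) (S'.smul_mem (c i) (hf'.1 0)))
        (hno i)
      rwa [sub_div, Algebra.smul_def, mul_div_assoc, div_self h0, mul_one] at h1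
    have hxV : ∀ i : Fin n, f' i.succ / f' 0 ∈ V := fun i => hf0.div _ (hf'.1 _)
    have hGV : aeval (fun i : Fin n => f' i.succ / f' 0) G ∈ V := by
      have h1 : Algebra.adjoin k (Set.range fun i : Fin n => f' i.succ / f' 0) ≤
          ({ V.toSubring with algebraMap_mem' := hV } : Subalgebra k K) := by
        refine Algebra.adjoin_le ?_
        rintro _ ⟨i, rfl⟩
        exact hxV i
      refine h1 ?_
      rw [Algebra.adjoin_range_eq_range_aeval]
      exact ⟨G, rfl⟩
    have hGc : V.valuation (aeval (fun i : Fin n => f' i.succ / f' 0) G -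
        algebraMap k K (eval c G)) < 1 := by
      obtain ⟨r, hr, hr'⟩ := exists_root (Q := Polynomial.X - Polynomial.C G) hV hx
        (Polynomial.monic_X_sub_C G) hGV (by simp)
      simp only [Polynomial.map_sub, Polynomial.map_X, Polynomial.map_C,
        Polynomial.roots_X_sub_C, Multiset.mem_singleton] at hr
      rwa [hr] at hr'
    have hG1 : V.valuation (aeval (fun i : Fin n => f' i.succ / f' 0) G) = 1 := by
      have h1 : aeval (fun i : Fin n => f' i.succ / f' 0) G =
          (aeval (fun i : Fin n => f' i.succ / f' 0) G - algebraMap k K (eval c G)) +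
            algebraMap k K (eval c G) := by ring
      have h2 := val_const (V := V) hV hc
      rw [h1, Valuation.map_add_eq_of_lt_right, h2]
      rwa [h2]
    have hb : ∀ j, (b j : K) / f' 0 ∈ V := by
      intro j
      have h1 := (V.valuation_le_one_iff _).2 (mem_of_root hV hxV (hQm j) (hQ j))
      rw [map_mul, hG1, one_mul] at h1
      exact (V.valuation_le_one_iff _).1 h1
    refine ⟨hle (hf'.1 0), h0, fun g hg => ?_⟩
    have h1 : g = ∑ j, b.repr ⟨g, hg⟩ j • (b j : K) := by
      have h := congrArg Subtype.val (b.sum_repr ⟨g, hg⟩)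
      rw [Submodule.coe_sum] at h
      exact h.symm
    rw [h1, Finset.sum_div]
    refine sum_mem fun j _ => ?_
    rw [Algebra.smul_def, mul_div_assoc]
    exact V.mul_mem _ _ (hV _) (hb j)
  refine ⟨HH, hHH, hkey, hkey2, fun f₀ hf₀ hf₀H => ⟨fun i => ?_, fun V hV => ?_⟩⟩
  · refine Fin.cases ?_ (fun i => ?_) i
    · exact hf₀
    · exact S.sub_mem (hle (hf'.1 _)) (S.smul_mem _ (hle (hf'.1 _)))
  · by_cases hno : ∃ i : Fin n, IsMin V S (f' i.succ - c i • f' 0)
    · obtain ⟨i, hi⟩ := hno
      exact ⟨i.succ, hi⟩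
    · push Not at hno
      obtain ⟨A, hA, hA'⟩ := hkey V hV hno
      exact ⟨0, hA' f₀ hf₀ (hf₀H A hA)⟩

end FIN

end Pool.Agent.TG
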