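import Pool.Agent.Lib.TG_h45.Bpf3

/-!
# TANK G, bridge B → C, row BC1: reductions of the maximal ideal (helper45)
-/

set_option autoImplicit false

namespace Pool.Agent.TGX45

open MvPolynomial

universe u

/-! ### a linear algebra lemma -/

/-- Spanning is an open condition on the coefficients. -/
theorem exists_poly_span {k : Type*} [Field k] {W : Type*} [AddCommGroup W] [Module k W]
    [Module.Finite k W] {n' m' M' : ℕ} (u : Fin m' → Fin M' → W) (c0 : Fin n' × Fin m' → k)
    (htop : Submodule.span k (Set.range fun x : Fin n' × Fin M' =>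
      ∑ j, c0 (x.1, j) • u j x.2) = ⊤) :
    ∃ Φ : MvPolynomial (Fin n' × Fin m') k, eval c0 Φ ≠ 0 ∧ ∀ c, eval c Φ ≠ 0 →
      Submodule.span k (Set.range fun x : Fin n' × Fin M' => ∑ j, c (x.1, j) • u j x.2) = ⊤ := by
  classical
  let e := Module.finBasis k W
  let w : (Fin n' × Fin m' → k) → (Fin n' × Fin M') → W := fun c x => ∑ j, c (x.1, j) • u j x.2
  obtain ⟨κ, a, ha, hspa, hli⟩ := exists_linearIndependent' k (w c0)
  let b' : Module.Basis κ k W := Module.Basis.mk hli (by rw [hspa]; exact htop.ge)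
  have : Finite κ := Module.Finite.finite_basis b'
  obtain ⟨_⟩ := nonempty_fintype κ
  let σ : Fin (Module.finrank k W) ≃ κ := e.indexEquiv b'
  let ρ := fun i => a (σ i)
  let M : Matrix (Fin (Module.finrank k W)) (Fin (Module.finrank k W))
      (MvPolynomial (Fin n' × Fin m') k) := fun t i =>
    ∑ j, C (e.repr (u j (ρ i).2) t) * X ((ρ i).1, j)
  have hM : ∀ c, eval c M.det = e.det (fun i => w c (ρ i)) := by
    intro c
    rw [Module.Basis.det_apply, RingHom.map_det]
    congr 1
    ext t i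
    simp only [RingHom.mapMatrix_apply, Matrix.map_apply, M, map_sum, map_mul, eval_C, eval_X,
      Module.Basis.toMatrix_apply, w, map_smul, Finsupp.coe_finsetSum, Finset.sum_apply,
      Finsupp.smul_apply, smul_eq_mul]
    exact Finset.sum_congr rfl fun j _ => mul_comm _ _
  refine ⟨M.det, ?_, fun c hc => ?_⟩
  · rw [hM]
    have h3 : (fun i => w c0 (ρ i)) = b'.reindex σ.symm := by
      ext i
      simp [b', ρ]
    rw [h3]
    exact (e.isUnit_det _).ne_zero
  · rw [hM] at hc
    have h1 := ((Module.Basis.is_basis_iff_det e).2 (isUnit_iff_ne_zero.2 hc)).2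
    rw [← top_le_iff, ← h1]
    refine Submodule.span_mono ?_
    rintro _ ⟨i, rfl⟩
    exact ⟨ρ i, rfl⟩

section Ring

variable {k A : Type*} [Field k] [CommRing A] [Algebra k A] {m J : Ideal A}

theorem prod_mem_pow {ι : Type*} {z : ι → A} (hz : ∀ i, z i ∈ m) (s : Multiset ι) :
    (s.map z).prod ∈ m ^ s.card := by
  induction s using Multiset.induction with
  | empty => simp
  | cons a s ih =>
    rw [Multiset.map_cons, Multiset.prod_cons, Multiset.card_cons, pow_succ']
    exact Ideal.mul_mem_mul (hz a) ih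

theorem prod_sub_mem {ι : Type*} {z z' : ι → A} (hz : ∀ i, z i ∈ m) (hz' : ∀ i, z' i ∈ m)
    (hJ : ∀ i, z i - z' i ∈ J) (s : Multiset ι) :
    (s.map z).prod - (s.map z').prod ∈ J * m ^ (s.card - 1) := by
  induction s using Multiset.induction with
  | empty => simp
  | cons a s ih =>
    rw [Multiset.map_cons, Multiset.prod_cons, Multiset.map_cons, Multiset.prod_cons,
      Multiset.card_cons, Nat.add_sub_cancel]
    have h1 : z a * (s.map z).prod - z' a * (s.map z').prod =
        z a * ((s.map z).prod - (s.map z').prod) + (z a - z' a) * (s.map z').prod := by ring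
    rw [h1]
    refine Ideal.add_mem _ ?_ (Ideal.mul_mem_mul (hJ a) (prod_mem_pow hz' s))
    rcases Nat.eq_zero_or_pos s.card with h0 | h0
    · have : s = 0 := Multiset.card_eq_zero.1 h0
      subst this
      simp
    · have h2 : J * m ^ s.card = m * (J * m ^ (s.card - 1)) := by
        rw [← mul_assoc, mul_comm m J, mul_assoc, ← pow_succ', Nat.sub_add_cancel h0]
      rw [h2]
      exact Ideal.mul_mem_mul (hz a) ih

theorem aeval_eq_sum {ι : Type*} (z : ι → A) (F : MvPolynomial ι k) :
    aeval z F = ∑ a ∈ F.support, F.coeff a • ((Finsupp.toMultiset a).map z).prod := by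
  classical
  rw [aeval_def, eval₂_eq]
  refine Finset.sum_congr rfl fun a _ => ?_
  rw [Algebra.smul_def, Finsupp.toMultiset_map, Finsupp.prod_toMultiset,
    Finsupp.prod_mapDomain_index]
  · simp [Finsupp.prod]
  · simp
  · intro b m₁ m₂; rw [pow_add]

theorem card_eq {ι : Type*} {F : MvPolynomial ι k} {d : ℕ} (hF : F.IsHomogeneous d)
    {a : ι →₀ ℕ} (ha : a ∈ F.support) : (Finsupp.toMultiset a).card = d := by
  rw [Finsupp.card_toMultiset]
  exact TG.sum_id_eq hF ha

theorem aeval_mem_pow {ι : Type*} {z : ι → A} (hz : ∀ i, z i ∈ m) {F : MvPolynomial ι k} {d : ℕ}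
    (hF : F.IsHomogeneous d) : aeval z F ∈ m ^ d := by
  rw [aeval_eq_sum]
  refine Ideal.sum_mem _ fun a ha => ?_
  have h := prod_mem_pow hz (Finsupp.toMultiset a)
  rw [card_eq hF ha] at h
  rw [Algebra.smul_def]
  exact Ideal.mul_mem_left _ _ h

theorem aeval_sub_mem {ι : Type*} {z z' : ι → A} (hz : ∀ i, z i ∈ m) (hz' : ∀ i, z' i ∈ m)
    (hJ : ∀ i, z i - z' i ∈ J) {F : MvPolynomial ι k} {d : ℕ} (hF : F.IsHomogeneous d) :
    aeval z F - aeval z' F ∈ J * m ^ (d - 1) := by
  rw [aeval_eq_sum, aeval_eq_sum, ← Finset.sum_sub_distrib]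
  refine Ideal.sum_mem _ fun a ha => ?_
  have h := prod_sub_mem hz hz' hJ (Finsupp.toMultiset a)
  rw [card_eq hF ha] at h
  rw [← smul_sub, Algebra.smul_def]
  exact Ideal.mul_mem_left _ _ h

theorem aeval_smul {ι : Type*} (q : ι → k) (g : A) {F : MvPolynomial ι k} {d : ℕ}
    (hF : F.IsHomogeneous d) : aeval (fun i => q i • g) F = eval q F • g ^ d := by
  classical
  rw [aeval_def, eval₂_eq, eval_eq, Finset.sum_smul]
  refine Finset.sum_congr rfl fun a ha => ?_
  have h1 : ∑ i ∈ a.support, a i = d := TG.sum_id_eq hF ha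
  simp only [Algebra.smul_def, mul_pow, Finset.prod_mul_distrib, map_mul, map_prod, map_pow,
    Finset.prod_pow_eq_pow_sum, h1]
  ring

/-- the lowest form of a relation -/
theorem exists_lowest {ι : Type*} {z : ι → A} (hz : ∀ i, z i ∈ m) {P : MvPolynomial ι k}
    (hP : P ≠ 0) (hPz : aeval z P = 0) :
    ∃ (d : ℕ) (F : MvPolynomial ι k), F.IsHomogeneous d ∧ F ≠ 0 ∧ aeval z F ∈ m ^ (d + 1) := by
  classical
  have hex : ∃ d, homogeneousComponent d P ≠ 0 := by
    by_contra hcon
    push Not at hcon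
    refine hP ?_
    rw [← sum_homogeneousComponent P]
    exact Finset.sum_eq_zero fun i _ => hcon i
  refine ⟨Nat.find hex, homogeneousComponent (Nat.find hex) P,
    homogeneousComponent_isHomogeneous _ _, Nat.find_spec hex, ?_⟩
  set d := Nat.find hex with hd
  have hdle : d ∈ Finset.range (P.totalDegree + 1) := by
    rw [Finset.mem_range, Nat.lt_succ_iff]
    by_contra hcon
    exact Nat.find_spec hex (homogeneousComponent_eq_zero _ _ (not_le.1 hcon))
  have h1 : aeval z (homogeneousComponent d P) =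
      - ∑ i ∈ (Finset.range (P.totalDegree + 1)).erase d, aeval z (homogeneousComponent i P) := by
    rw [eq_neg_iff_add_eq_zero,
      Finset.add_sum_erase _ (fun i => aeval z (homogeneousComponent i P)) hdle, ← map_sum,
      sum_homogeneousComponent, hPz]
  rw [h1]
  refine (Submodule.neg_mem_iff _).2 (Ideal.sum_mem _ fun i hi => ?_)
  rcases lt_or_ge i d with h2 | h2
  · have := Nat.find_min hex h2
    push Not at this
    rw [this, map_zero]
    exact Ideal.zero_mem _
  · have h3 : d + 1 ≤ i := by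
      have := (Finset.mem_erase.1 hi).1
      omega
    exact Ideal.pow_le_pow_right h3 (aeval_mem_pow hz (homogeneousComponent_isHomogeneous _ _))

theorem sup_pow_le {g : A} (hJ : J ≤ m) (hg : g ∈ m) (j : ℕ) :
    (J ⊔ Ideal.span {g}) ^ (j + 1) ≤ J * m ^ j ⊔ Ideal.span {g ^ (j + 1)} := by
  have hgm : Ideal.span {g} ≤ m := (Ideal.span_singleton_le_iff_mem _).2 hg
  induction j with
  | zero => simp
  | succ j ih =>
    calc (J ⊔ Ideal.span {g}) ^ (j + 1 + 1)
        = (J ⊔ Ideal.span {g}) * (J ⊔ Ideal.span {g}) ^ (j + 1) := pow_succ' _ _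
      _ = J * (J ⊔ Ideal.span {g}) ^ (j + 1) ⊔
          Ideal.span {g} * (J ⊔ Ideal.span {g}) ^ (j + 1) := Ideal.sup_mul _ _ _
      _ ≤ J * m ^ (j + 1) ⊔ Ideal.span {g} * (J * m ^ j ⊔ Ideal.span {g ^ (j + 1)}) :=
          sup_le_sup (mul_le_mul' le_rfl (pow_le_pow_left' (sup_le hJ hgm) _))
            (mul_le_mul' le_rfl ih)
      _ ≤ J * m ^ (j + 1) ⊔ Ideal.span {g ^ (j + 1 + 1)} := by
          rw [Ideal.mul_sup, Ideal.span_singleton_mul_span_singleton, ← pow_succ']
          refine sup_le le_sup_left (sup_le ?_ le_sup_right)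
          refine le_trans ?_ le_sup_left
          have h : J * m ^ (j + 1) = m * (J * m ^ j) := by
            rw [← mul_assoc, mul_comm m J, mul_assoc, ← pow_succ']
          rw [h]
          exact mul_le_mul' hgm le_rfl

/-- `J` is a reduction of `m` with exponent `r` (modulo Nakayama). -/
def RedI (m J : Ideal A) (r : ℕ) : Prop := m ^ (r + 1) ≤ J * m ^ r ⊔ m ^ (r + 2)

theorem RedI.pow {r : ℕ} (h : RedI m J r) (hJ : J ≤ m) (j : ℕ) :
    m ^ (r + j) ≤ J ^ j * m ^ r ⊔ m ^ (r + j + 1) := by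
  induction j with
  | zero => simp
  | succ j ih =>
    have h1 : J ^ j * m ^ (r + 2) ≤ m ^ (r + (j + 1) + 1) := by
      calc J ^ j * m ^ (r + 2) ≤ m ^ j * m ^ (r + 2) := mul_le_mul' (pow_le_pow_left' hJ _) le_rfl
        _ = m ^ (r + (j + 1) + 1) := by rw [← pow_add]; congr 1; omega
    calc m ^ (r + (j + 1)) = m ^ (r + j) * m := by rw [← pow_succ]; rfl
      _ ≤ (J ^ j * m ^ r ⊔ m ^ (r + j + 1)) * m := mul_le_mul' ih le_rfl
      _ = J ^ j * m ^ (r + 1) ⊔ m ^ (r + (j + 1) + 1) := by
          rw [Ideal.sup_mul, mul_assoc, ← pow_succ, ← pow_succ]; rfl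
      _ ≤ J ^ j * (J * m ^ r ⊔ m ^ (r + 2)) ⊔ m ^ (r + (j + 1) + 1) :=
          sup_le_sup (mul_le_mul' le_rfl h) le_rfl
      _ ≤ J ^ (j + 1) * m ^ r ⊔ m ^ (r + (j + 1) + 1) := by
          rw [Ideal.mul_sup, ← mul_assoc, ← pow_succ]
          exact sup_le (sup_le le_sup_left (h1.trans le_sup_right)) le_sup_right

/-- One step of the linear Noether normalisation of the graded ring. -/
theorem redI_step [Infinite k] {N : ℕ} {z : Fin (N + 1) → A} (hz : ∀ i, z i ∈ m)
    (hdep : ¬ AlgebraicIndependent k z) {r : ℕ} (hr : RedI m (Ideal.span (Set.range z)) r) :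
    ∃ (z' : Fin N → A) (r' : ℕ), (∀ i, z' i ∈ Submodule.span k (Set.range z)) ∧
      RedI m (Ideal.span (Set.range z')) r' := by
  classical
  rw [algebraicIndependent_iff] at hdep
  push Not at hdep
  obtain ⟨P, hPz, hP⟩ := hdep
  obtain ⟨d₀, F₀, hF₀h, hF₀, hF₀z⟩ := exists_lowest hz hP hPz
  -- make the degree positive
  obtain ⟨d, F, hFh, hF, hFz⟩ : ∃ (d : ℕ) (F : MvPolynomial (Fin (N + 1)) k),
      F.IsHomogeneous (d + 1) ∧ F ≠ 0 ∧ aeval z F ∈ m ^ (d + 2) := by
    refine ⟨d₀, F₀ * X 0, hF₀h.mul (isHomogeneous_X k 0), mul_ne_zero hF₀ (X_ne_zero _), ?_⟩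
    rw [map_mul, aeval_X]
    have h : m ^ (d₀ + 2) = m ^ (d₀ + 1) * m := pow_succ _ _
    rw [h]
    exact Ideal.mul_mem_mul hF₀z (hz 0)
  obtain ⟨q, hq⟩ : ∃ q : Fin (N + 1) → k, eval q F ≠ 0 := by
    by_contra hcon
    push Not at hcon
    exact hF (MvPolynomial.funext fun q => by rw [hcon q, map_zero])
  obtain ⟨i0, hi0⟩ : ∃ i, q i ≠ 0 := by
    by_contra hcon
    push Not at hcon
    have hq0 : q = 0 := funext hcon
    have h2 : eval q F = F.coeff 0 := by
      rw [hq0, ← constantCoeff_eq]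
      exact eval₂Hom_zero_apply (RingHom.id k) F
    rw [h2] at hq
    have h3 := hFh hq
    rw [map_zero] at h3
    omega
  set g : A := (q i0)⁻¹ • z i0 with hgdef
  have hsm : ∀ (a : k) (x : A), x ∈ m → a • x ∈ m := fun a x hx => by
    rw [Algebra.smul_def]; exact Ideal.mul_mem_left _ _ hx
  have hg : g ∈ m := hsm _ _ (hz i0)
  let z' : Fin N → A := fun i => z (i0.succAbove i) - q (i0.succAbove i) • g
  set J := Ideal.span (Set.range z') with hJdef
  have hJm : J ≤ m := by
    rw [hJdef, Ideal.span_le]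
    rintro _ ⟨i, rfl⟩
    exact Ideal.sub_mem _ (hz _) (hsm _ _ hg)
  have hzJ : ∀ i, z i - q i • g ∈ J := by
    intro i
    rcases Fin.eq_self_or_eq_succAbove i0 i with h | ⟨j, h⟩
    · rw [h, hgdef, smul_smul, mul_inv_cancel₀ hi0, one_smul, sub_self]
      exact Ideal.zero_mem _
    · rw [h]
      exact Ideal.subset_span ⟨j, rfl⟩
  have hle : Ideal.span (Set.range z) ≤ J ⊔ Ideal.span {g} := by
    rw [Ideal.span_le]
    rintro _ ⟨i, rfl⟩
    have h1 : z i = (z i - q i • g) + q i • g := by ring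
    rw [h1]
    refine Ideal.add_mem _ (Ideal.mem_sup_left (hzJ i)) (Ideal.mem_sup_right ?_)
    rw [Algebra.smul_def]
    exact Ideal.mul_mem_left _ _ (Ideal.mem_span_singleton_self g)
  have hgd : g ^ (d + 1) ∈ J * m ^ d ⊔ m ^ (d + 2) := by
    have h1 := aeval_sub_mem (J := J) hz (fun i => hsm (q i) g hg) hzJ hFh
    rw [aeval_smul q g hFh, Nat.add_sub_cancel] at h1
    have h2 : eval q F • g ^ (d + 1) ∈ J * m ^ d ⊔ m ^ (d + 2) := by
      have h3 : eval q F • g ^ (d + 1) = aeval z F - (aeval z F - eval q F • g ^ (d + 1)) := by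
        ring
      rw [h3]
      exact Ideal.sub_mem _ (Ideal.mem_sup_right hFz) (Ideal.mem_sup_left h1)
    have h4 : g ^ (d + 1) = algebraMap k A (eval q F)⁻¹ * (eval q F • g ^ (d + 1)) := by
      rw [← Algebra.smul_def, smul_smul, inv_mul_cancel₀ hq, one_smul]
    rw [h4]
    exact Ideal.mul_mem_left _ _ h2
  have hZ : Ideal.span (Set.range z) ^ (d + 1) ≤ J * m ^ d ⊔ m ^ (d + 2) := by
    refine (pow_le_pow_left' hle _).trans ((sup_pow_le hJm hg d).trans (sup_le le_sup_left ?_))
    exact (Ideal.span_singleton_le_iff_mem _).2 hgd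
  have hzm : Ideal.span (Set.range z) ≤ m := by
    rw [Ideal.span_le]
    rintro _ ⟨i, rfl⟩
    exact hz i
  refine ⟨z', r + d, fun i => ?_, ?_⟩
  · refine Submodule.sub_mem _ (Submodule.subset_span ⟨_, rfl⟩) (Submodule.smul_mem _ _
      (Submodule.smul_mem _ _ (Submodule.subset_span ⟨_, rfl⟩)))
  · have h1 := hr.pow hzm (d + 1)
    have h2 : (J * m ^ d ⊔ m ^ (d + 2)) * m ^ r ≤ J * m ^ (r + d) ⊔ m ^ (r + d + 2) := by
      rw [Ideal.sup_mul, mul_assoc, ← pow_add, ← pow_add, add_comm d r]
      refine sup_le_sup le_rfl (le_of_eq ?_)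
      congr 1
      omega
    calc m ^ (r + d + 1) = m ^ (r + (d + 1)) := rfl
      _ ≤ Ideal.span (Set.range z) ^ (d + 1) * m ^ r ⊔ m ^ (r + (d + 1) + 1) := h1
      _ ≤ (J * m ^ d ⊔ m ^ (d + 2)) * m ^ r ⊔ m ^ (r + d + 2) :=
          sup_le_sup (mul_le_mul' hZ le_rfl) le_rfl
      _ ≤ J * m ^ (r + d) ⊔ m ^ (r + d + 2) := sup_le h2 le_sup_right

/-- Existence of a reduction with `n` generators. -/
theorem exists_redI [Infinite k] (n : ℕ)
    (hdep : ∀ N : ℕ, n ≤ N → ∀ z : Fin (N + 1) → A, ¬ AlgebraicIndependent k z) :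
    ∀ (N : ℕ) (z : Fin N → A), (∀ i, z i ∈ m) → ∀ r, RedI m (Ideal.span (Set.range z)) r →
      ∃ (z' : Fin n → A) (r' : ℕ), (∀ i, z' i ∈ Submodule.span k (Set.range z)) ∧
        RedI m (Ideal.span (Set.range z')) r' := by
  classical
  intro N
  induction N with
  | zero =>
    intro z _ r hr
    refine ⟨fun _ => 0, r, fun _ => Submodule.zero_mem _, hr.trans (sup_le_sup (mul_le_mul' ?_ le_rfl) le_rfl)⟩
    rw [Ideal.span_le]
    rintro _ ⟨i, rfl⟩
    exact i.elim0
  | succ N ih =>
    intro z hz r hr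
    by_cases hN : n ≤ N
    · obtain ⟨z₁, r₁, h1, h2⟩ := redI_step hz (hdep N hN z) hr
      have hz₁ : ∀ i, z₁ i ∈ m := by
        intro i
        have h3 : Submodule.span k (Set.range z) ≤ m.restrictScalars k := by
          rw [Submodule.span_le]
          rintro _ ⟨j, rfl⟩
          exact hz j
        exact h3 (h1 i)
      obtain ⟨z', r', h4, h5⟩ := ih z₁ hz₁ r₁ h2
      refine ⟨z', r', fun i => ?_, h5⟩
      have h6 : Submodule.span k (Set.range z₁) ≤ Submodule.span k (Set.range z) := by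
        rw [Submodule.span_le]
        rintro _ ⟨j, rfl⟩
        exact h1 j
      exact h6 (h4 i)
    · have hN' : N + 1 ≤ n := by omega
      refine ⟨fun i => if h : (i : ℕ) < N + 1 then z ⟨i, h⟩ else 0, r, fun i => ?_, ?_⟩
      · dsimp only
        split_ifs with h
        · exact Submodule.subset_span ⟨_, rfl⟩
        · exact Submodule.zero_mem _
      · refine hr.trans (sup_le_sup (mul_le_mul' ?_ le_rfl) le_rfl)
        rw [Ideal.span_le]
        rintro _ ⟨i, rfl⟩
        exact Ideal.subset_span ⟨⟨i, lt_of_lt_of_le i.2 hN'⟩, dif_pos i.2⟩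

/-! ### openness -/

variable {h : ℕ} {e : Fin h → A}

/-- `m ^ i = E ^ i + m ^ (i + 1)`. -/
theorem pow_le_E (he : Ideal.span (Set.range e) = m)
    (hres : ∀ a : A, ∃ c : k, a - algebraMap k A c ∈ m) (i : ℕ) :
    (m ^ i).restrictScalars k ≤
      Submodule.span k (Set.range e) ^ i ⊔ (m ^ (i + 1)).restrictScalars k := by
  have hEm : ∀ j, Submodule.span k (Set.range e) ^ j ≤ (m ^ j).restrictScalars k := by
    intro j
    induction j with
    | zero => intro x _; simp
    | succ j ih =>
      rw [pow_succ]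
      refine Submodule.mul_le.2 fun x hx y hy => ?_
      have hy' : y ∈ m := by
        have h3 : Submodule.span k (Set.range e) ≤ m.restrictScalars k := by
          rw [Submodule.span_le]
          rintro _ ⟨j, rfl⟩
          rw [← he]
          exact Ideal.subset_span ⟨j, rfl⟩
        exact h3 hy
      change x * y ∈ m ^ (j + 1)
      rw [pow_succ]
      exact Ideal.mul_mem_mul (ih hx) hy'
  induction i with
  | zero =>
    intro x _
    obtain ⟨c, hc⟩ := hres x
    have h1 : x = algebraMap k A c + (x - algebraMap k A c) := by ring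
    rw [h1]
    refine Submodule.add_mem_sup ?_ ?_
    · rw [pow_zero, Submodule.one_eq_range]
      exact ⟨c, rfl⟩
    · change x - algebraMap k A c ∈ m ^ (0 + 1)
      rw [zero_add, pow_one]
      exact hc
  | succ i ih =>
    intro x hx
    have hx' : x ∈ m ^ i * m := by rw [← pow_succ]; exact hx
    have hm1 : ∀ y ∈ m, ∃ y₀ ∈ Submodule.span k (Set.range e), y - y₀ ∈ m ^ 2 := by
      intro y hy
      rw [← he] at hy
      induction hy using Submodule.span_induction with
      | mem y hy => exact ⟨y, Submodule.subset_span hy, by rw [sub_self]; exact Ideal.zero_mem _⟩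
      | zero => exact ⟨0, Submodule.zero_mem _, by rw [sub_self]; exact Ideal.zero_mem _⟩
      | add a b _ _ ha hb =>
        obtain ⟨a₀, ha₀, ha'⟩ := ha
        obtain ⟨b₀, hb₀, hb'⟩ := hb
        refine ⟨a₀ + b₀, Submodule.add_mem _ ha₀ hb₀, ?_⟩
        rw [add_sub_add_comm]
        exact Ideal.add_mem _ ha' hb'
      | smul a b hb hb' =>
        obtain ⟨b₀, hb₀, hbb⟩ := hb'
        obtain ⟨c, hc⟩ := hres a
        refine ⟨c • b₀, Submodule.smul_mem _ _ hb₀, ?_⟩
        have hbm : b ∈ m := by rw [← he]; exact hb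
        have h1 : a • b - c • b₀ = (a - algebraMap k A c) * b + algebraMap k A c * (b - b₀) := by
          rw [smul_eq_mul, Algebra.smul_def]; ring
        rw [h1, pow_two]
        refine Ideal.add_mem _ (Ideal.mul_mem_mul hc hbm) ?_
        rw [← pow_two]
        exact Ideal.mul_mem_left _ _ hbb
    refine Submodule.mul_induction_on hx' (fun a ha b hb => ?_) (fun a b ha hb => ?_)
    · obtain ⟨a₀, ha₀, a₁, ha₁, rfl⟩ := Submodule.mem_sup.1 (ih ha)
      obtain ⟨b₀, hb₀, hb₁⟩ := hm1 b hb
      have hb₀m : b₀ ∈ m := by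
        have h3 := hEm 1
        rw [pow_one, pow_one] at h3
        exact h3 hb₀
      have h1 : (a₀ + a₁) * b = a₀ * b₀ + (a₀ * (b - b₀) + a₁ * b) := by ring
      rw [h1]
      refine Submodule.add_mem_sup ?_ ?_
      · rw [pow_succ]
        exact Submodule.mul_mem_mul ha₀ hb₀
      · change a₀ * (b - b₀) + a₁ * b ∈ m ^ (i + 1 + 1)
        refine Ideal.add_mem _ ?_ ?_
        · have h2 : m ^ (i + 1 + 1) = m ^ i * m ^ 2 := by rw [← pow_add]
          rw [h2]
          exact Ideal.mul_mem_mul (hEm i ha₀) hb₁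
        · rw [pow_succ]
          exact Ideal.mul_mem_mul ha₁ hb
    · exact Submodule.add_mem _ ha hb

/-- The linear combinations of `e` with coefficients `c`. -/
def lin {n : ℕ} (e : Fin h → A) (c : Fin n × Fin h → k) (i : Fin n) : A := ∑ j, c (i, j) • e j

/-- **RED**: the generic `n` combinations of the generators of `m` generate a reduction. -/
theorem exists_poly_redI [Infinite k] (n : ℕ)
    (hdep : ∀ N : ℕ, n ≤ N → ∀ z : Fin (N + 1) → A, ¬ AlgebraicIndependent k z)
    (he : Ideal.span (Set.range e) = m) (hres : ∀ a : A, ∃ c : k, a - algebraMap k A c ∈ m) :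
    ∃ (r : ℕ) (Φ : MvPolynomial (Fin n × Fin h) k), Φ ≠ 0 ∧ ∀ c, eval c Φ ≠ 0 →
      RedI m (Ideal.span (Set.range (lin e c))) r := by
  classical
  have hem : ∀ j, e j ∈ m := fun j => by rw [← he]; exact Ideal.subset_span ⟨j, rfl⟩
  obtain ⟨z, r, hz, hzr⟩ := exists_redI (m := m) n hdep h e hem 0 (by
    rw [RedI, he, pow_zero, mul_one, zero_add, pow_one]; exact le_sup_left)
  obtain ⟨c0, hc0⟩ : ∃ c0 : Fin n × Fin h → k, lin e c0 = z := by
    have h1 : ∀ i, ∃ a : Fin h → k, ∑ j, a j • e j = z i := fun i =>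
      (Submodule.mem_span_range_iff_exists_fun k).1 (hz i)
    choose a ha using h1
    exact ⟨fun x => a x.1 x.2, funext fun i => ha i⟩
  set E := Submodule.span k (Set.range e) with hE
  have hEfg : ∀ j, (E ^ j).FG := fun j => (Submodule.fg_span (Set.finite_range _)).pow j
  let π := ((m ^ (r + 2)).restrictScalars k).mkQ
  let W := (E ^ (r + 1)).map π
  have : Module.Finite k W := Module.Finite.iff_fg.2 ((hEfg _).map _)
  obtain ⟨M', bb, hb⟩ : ∃ (M' : ℕ) (bb : Fin M' → A), Submodule.span k (Set.range bb) = E ^ r := by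
    obtain ⟨n, s, hs⟩ := Submodule.fg_iff_exists_fin_generating_family.1 (hEfg r)
    exact ⟨n, s, hs⟩
  have hbE : ∀ l, bb l ∈ E ^ r := fun l => by rw [← hb]; exact Submodule.subset_span ⟨l, rfl⟩
  have heE : ∀ j, e j ∈ E := fun j => Submodule.subset_span ⟨j, rfl⟩
  have hEm : ∀ j, E ^ j ≤ (m ^ j).restrictScalars k := by
    intro j
    induction j with
    | zero => intro x _; simp
    | succ j ih =>
      rw [pow_succ]
      refine Submodule.mul_le.2 fun x hx y hy => ?_
      have hy' : y ∈ m := by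
        have h3 : E ≤ m.restrictScalars k := by
          rw [hE, Submodule.span_le]
          rintro _ ⟨j, rfl⟩
          exact hem j
        exact h3 hy
      change x * y ∈ m ^ (j + 1)
      rw [pow_succ]
      exact Ideal.mul_mem_mul (ih hx) hy'
  let u : Fin h → Fin M' → W := fun j l =>
    ⟨π (e j * bb l), Submodule.mem_map_of_mem (by
      rw [pow_succ']; exact Submodule.mul_mem_mul (heE j) (hbE l))⟩
  let w : (Fin n × Fin h → k) → (Fin n × Fin M') → W := fun c x => ∑ j, c (x.1, j) • u j x.2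
  have hw : ∀ c x, (w c x : A ⧸ (m ^ (r + 2)).restrictScalars k) = π (lin e c x.1 * bb x.2) := by
    intro c x
    simp only [w, u, lin, Submodule.coe_sum, Submodule.coe_smul, Finset.sum_mul, smul_mul_assoc,
      map_sum, map_smul]
  have hlinE : ∀ (c : Fin n × Fin h → k) i, lin e c i ∈ E := fun c i =>
    Submodule.sum_mem _ fun j _ => Submodule.smul_mem _ _ (heE j)
  have hlinm : ∀ (c : Fin n × Fin h → k) i, lin e c i ∈ m := fun c i => by
    have h3 := hEm 1
    rw [pow_one, pow_one] at h3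
    exact h3 (hlinE c i)
  -- the two implications
  have hspan : ∀ c, Submodule.map W.subtype (Submodule.span k (Set.range (w c))) =
      (Submodule.span k (Set.range fun x : Fin n × Fin M' => lin e c x.1 * bb x.2)).map π := by
    intro c
    rw [Submodule.map_span, Submodule.map_span, ← Set.range_comp, ← Set.range_comp]
    congr 2
    funext x
    exact hw c x
  have htop : Submodule.span k (Set.range (w c0)) = ⊤ := by
    refine top_le_iff.1 ?_
    rw [← Submodule.map_le_map_iff_of_injective W.injective_subtype, hspan,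
      Submodule.map_top, Submodule.range_subtype, hc0]
    rintro _ ⟨x, hx, rfl⟩
    have hxm : x ∈ Ideal.span (Set.range z) * m ^ r ⊔ m ^ (r + 2) := hzr (hEm _ hx)
    obtain ⟨x₁, hx₁, x₂, hx₂, rfl⟩ := Submodule.mem_sup.1 hxm
    have hπ2 : π x₂ = 0 := (Submodule.Quotient.mk_eq_zero _).2 hx₂
    rw [map_add, hπ2, add_zero]
    clear hx hxm
    have key : ∀ y ∈ m ^ r, ∀ i, π (z i * y) ∈
        (Submodule.span k (Set.range fun x : Fin n × Fin M' => z x.1 * bb x.2)).map π := by
      intro y hy i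
      obtain ⟨y₀, hy₀, y₁, hy₁, rfl⟩ := Submodule.mem_sup.1 (pow_le_E he hres r hy)
      have h0 : π (z i * y₁) = 0 := by
        refine (Submodule.Quotient.mk_eq_zero _).2 ?_
        change z i * y₁ ∈ m ^ (r + 2)
        have h2 : m ^ (r + 2) = m * m ^ (r + 1) := pow_succ' _ _
        rw [h2]
        refine Ideal.mul_mem_mul ?_ hy₁
        rw [← hc0]; exact hlinm c0 i
      rw [mul_add, map_add, h0, add_zero]
      refine Submodule.mem_map_of_mem ?_
      rw [← hb] at hy₀
      clear hy h0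
      induction hy₀ using Submodule.span_induction with
      | mem y hy =>
        obtain ⟨l, rfl⟩ := hy
        exact Submodule.subset_span ⟨(i, l), rfl⟩
      | zero => rw [mul_zero]; exact Submodule.zero_mem _
      | add a b _ _ ha hb => rw [mul_add]; exact Submodule.add_mem _ ha hb
      | smul a b _ hb => rw [mul_smul_comm]; exact Submodule.smul_mem _ _ hb
    refine Submodule.mul_induction_on hx₁ (fun a ha b hb => ?_) (fun a b ha hb => ?_)
    · induction ha using Submodule.span_induction generalizing b with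
      | mem a ha =>
        obtain ⟨i, rfl⟩ := ha
        exact key b hb i
      | zero => rw [zero_mul, map_zero]; exact Submodule.zero_mem _
      | add a a' _ _ ha ha' =>
        rw [add_mul, map_add]; exact Submodule.add_mem _ (ha b hb) (ha' b hb)
      | smul a a' _ ha' =>
        have h1 : a • a' * b = a' * (a * b) := by rw [smul_eq_mul]; ring
        rw [h1]
        exact ha' _ (Ideal.mul_mem_left _ _ hb)
    · rw [map_add]; exact Submodule.add_mem _ ha hb
  obtain ⟨Φ, hΦ0, hΦ⟩ := exists_poly_span u c0 htop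
  refine ⟨r, Φ, fun h0 => hΦ0 (by rw [h0, map_zero]), fun c hc => ?_⟩
  have h1 := hspan c
  have h2 : Submodule.span k (Set.range (w c)) = ⊤ := hΦ c hc
  rw [h2, Submodule.map_top, Submodule.range_subtype] at h1
  intro x hx
  obtain ⟨x₀, hx₀, x₁, hx₁, rfl⟩ := Submodule.mem_sup.1 (pow_le_E he hres (r + 1) hx)
  refine Ideal.add_mem _ ?_ (Ideal.mem_sup_right hx₁)
  have h3 : π x₀ ∈ W := Submodule.mem_map_of_mem hx₀
  rw [h1] at h3
  obtain ⟨y, hy, hyx⟩ := h3
  have h4 : x₀ - y ∈ m ^ (r + 2) := by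
    have h5 : π (x₀ - y) = 0 := by rw [map_sub, hyx, sub_self]
    exact (Submodule.Quotient.mk_eq_zero _).1 h5
  have h5 : x₀ = y + (x₀ - y) := by ring
  rw [h5]
  refine Ideal.add_mem _ (Ideal.mem_sup_left ?_) (Ideal.mem_sup_right h4)
  have h6 : Submodule.span k (Set.range fun x : Fin n × Fin M' => lin e c x.1 * bb x.2) ≤
      (Ideal.span (Set.range (lin e c)) * m ^ r).restrictScalars k := by
    rw [Submodule.span_le]
    rintro _ ⟨x, rfl⟩
    exact Ideal.mul_mem_mul (Ideal.subset_span ⟨x.1, rfl⟩) (hEm r (hbE x.2))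
  exact h6 hy

end Ring

end Pool.Agent.TGX45
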