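import Pool.Agent.Lib.TG_h45.RedX
import Pool.Agent.Lib.TG15.Defs

/-!
# TANK G, bridge B → C, rows BC1 and BC1': RED at a point of a model (helper45)
-/

set_option autoImplicit false

namespace Pool.Agent.TGX45

open MvPolynomial Pool.Agent.TG Pool.Agent.TG15

universe u

section Chart

variable {k K : Type u} [Field k] [Field K] [Algebra k K] {V : ValuationSubring K}
  {H : Submodule k K} {f₀ : K}

/-- An element of `H` divided by `f₀`, in the chart. -/
def dch (H : Submodule k K) (f₀ : K) (x : H) : ch H f₀ := ⟨(x : K) / f₀, div_mem_ch x.2⟩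

/-- `u_l = (∑ⱼ c_lj eⱼ) / f₀` as an element of the chart. -/
def uch {n h : ℕ} (H : Submodule k K) (f₀ : K) {e : Fin h → K} (he : ∀ j, e j ∈ H)
    (c : Fin (n + 1) × Fin h → k) (l : Fin n) : ch H f₀ :=
  dch H f₀ ⟨∑ j, c (l.succ, j) • e j, Submodule.sum_mem _ fun j _ => H.smul_mem _ (he j)⟩

theorem uch_coe {n h : ℕ} {e : Fin h → K} (he : ∀ j, e j ∈ H) (c : Fin (n + 1) × Fin h → k)
    (l : Fin n) : (uch H f₀ he c l : K) = tup f₀ e c l.succ / f₀ := by
  simp [uch, dch, tup, Fin.succ_ne_zero]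

theorem hx_le : hx V H ≤ H := fun _ hx => hx.1

theorem mx_eq {h : ℕ} {e : Fin h → K} (he : Submodule.span k (Set.range e) = hx V H) :
    Ideal.span (Set.range fun j => dch H f₀ ⟨e j, hx_le (by
      rw [← he]; exact Submodule.subset_span ⟨j, rfl⟩)⟩) = mx H f₀ (hx V H) := by
  refine le_antisymm (Ideal.span_le.2 ?_) (Ideal.span_le.2 ?_)
  · rintro _ ⟨j, rfl⟩
    exact Ideal.subset_span ⟨e j, by rw [← he]; exact Submodule.subset_span ⟨j, rfl⟩, rfl⟩
  · rintro a ⟨x, hx, ha⟩
    rw [← he] at hx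
    obtain ⟨c, rfl⟩ := (Submodule.mem_span_range_iff_exists_fun k).1 hx
    have h1 : a = ∑ j, c j • dch H f₀ ⟨e j, hx_le (by
        rw [← he]; exact Submodule.subset_span ⟨j, rfl⟩)⟩ := by
      apply Subtype.ext
      rw [ha]
      rw [AddSubmonoidClass.coe_finsetSum, Finset.sum_div]
      refine Finset.sum_congr rfl fun j _ => ?_
      rw [Subalgebra.coe_smul, Algebra.smul_def, Algebra.smul_def, mul_div_assoc]
      rfl
    rw [h1]
    refine Ideal.sum_mem _ fun j _ => ?_
    rw [Algebra.smul_def]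
    exact Ideal.mul_mem_left _ _ (Ideal.subset_span ⟨j, rfl⟩)

/-- the residue field of the point is `k` -/
theorem exists_res (hV : ZDim k V) (hf : IsMin V H f₀) (a : ch H f₀) :
    ∃ c : k, a - algebraMap k (ch H f₀) c ∈ mx H f₀ (hx V H) := by
  obtain ⟨a, ha⟩ := a
  induction ha using Algebra.adjoin_induction with
  | mem x hx =>
    obtain ⟨g, hg, rfl⟩ := hx
    obtain ⟨c, hc⟩ := hV.res _ (hf.div g hg)
    refine ⟨c, Ideal.subset_span ⟨g - c • f₀, ⟨H.sub_mem hg (H.smul_mem _ hf.mem), ?_⟩, ?_⟩⟩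
    · by_cases h0 : g - c • f₀ = 0
      · exact Or.inl h0
      · refine Or.inr ⟨f₀, hf.mem, ?_⟩
        have h1 : g - c • f₀ = (g / f₀ - algebraMap k K c) * f₀ := by
          rw [sub_mul, div_mul_cancel₀ _ hf.ne, Algebra.smul_def]
        rw [h1, map_mul]
        have h2 : V.valuation f₀ ≠ 0 := (Valuation.ne_zero_iff _).2 hf.ne
        exact mul_lt_of_lt_one_left (zero_lt_iff.2 h2) hc
    · change g / f₀ - algebraMap k K c = _
      rw [sub_div, Algebra.smul_def, mul_div_assoc, div_self hf.ne, mul_one]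
  | algebraMap r =>
    refine ⟨r, ?_⟩
    have h1 : (⟨algebraMap k K r, (ch H f₀).algebraMap_mem r⟩ : ch H f₀) -
        algebraMap k (ch H f₀) r = 0 := by
      apply Subtype.ext
      exact sub_self _
    rw [h1]
    exact Ideal.zero_mem _
  | add x y hx hy ihx ihy =>
    obtain ⟨c, hc⟩ := ihx
    obtain ⟨d, hd⟩ := ihy
    refine ⟨c + d, ?_⟩
    have h1 : (⟨x + y, add_mem hx hy⟩ : ch H f₀) - algebraMap k (ch H f₀) (c + d) =
        (⟨x, hx⟩ - algebraMap k (ch H f₀) c) + (⟨y, hy⟩ - algebraMap k (ch H f₀) d) := by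
      rw [map_add]
      have h2 : (⟨x + y, add_mem hx hy⟩ : ch H f₀) = ⟨x, hx⟩ + ⟨y, hy⟩ := rfl
      rw [h2]; ring
    rw [h1]
    exact Ideal.add_mem _ hc hd
  | mul x y hx hy ihx ihy =>
    obtain ⟨c, hc⟩ := ihx
    obtain ⟨d, hd⟩ := ihy
    refine ⟨c * d, ?_⟩
    have h1 : (⟨x * y, mul_mem hx hy⟩ : ch H f₀) - algebraMap k (ch H f₀) (c * d) =
        ⟨y, hy⟩ * (⟨x, hx⟩ - algebraMap k (ch H f₀) c) +
          algebraMap k (ch H f₀) c * (⟨y, hy⟩ - algebraMap k (ch H f₀) d) := by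
      rw [map_mul]
      have h2 : (⟨x * y, mul_mem hx hy⟩ : ch H f₀) = ⟨x, hx⟩ * ⟨y, hy⟩ := rfl
      rw [h2]; ring
    rw [h1]
    exact Ideal.add_mem _ (Ideal.mul_mem_left _ _ hc) (Ideal.mul_mem_left _ _ hd)

theorem not_algInd {n : ℕ} (hn : Algebra.trdeg k K ≤ n) (R : Subalgebra k K) {N : ℕ} (hN : n ≤ N)
    (z : Fin (N + 1) → R) : ¬ AlgebraicIndependent k z := by
  intro h
  have h' : AlgebraicIndependent k (fun i => (z i : K)) :=
    h.map' (f := R.val) Subtype.val_injective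
  have h1 := h'.lift_cardinalMk_le_trdeg
  rw [Cardinal.mk_fin, Cardinal.lift_natCast] at h1
  have h2 : ((N + 1 : ℕ) : Cardinal) ≤ n := by
    refine h1.trans ?_
    have := Cardinal.lift_le.{0}.2 hn
    simpa using this
  have h3 : N + 1 ≤ n := by exact_mod_cast h2
  omega

/-- **BC1 (RED).** For a generic tuple `g = tup f₀ e c` the elements `u_l = g_(l+1) / f₀` generate
a reduction of the maximal ideal of the point. -/
theorem red_generic [Infinite k] {n : ℕ} (hn : Algebra.trdeg k K ≤ n) (hV : ZDim k V)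
    (hf : IsMin V H f₀) {h : ℕ} {e : Fin h → K}
    (he : Submodule.span k (Set.range e) = hx V H) (heH : ∀ j, e j ∈ H) :
    ∃ Φ : MvPolynomial (Fin (n + 1) × Fin h) k, Φ ≠ 0 ∧ ∀ c, eval c Φ ≠ 0 →
      ∃ r : ℕ, mx H f₀ (hx V H) ^ (r + 1) ≤
        Ideal.span (Set.range (uch H f₀ heH c)) * mx H f₀ (hx V H) ^ r ⊔
          mx H f₀ (hx V H) ^ (r + 2) := by
  obtain ⟨r, Φ, hΦ0, hΦ⟩ := exists_poly_redI n
    (fun N hN z => not_algInd hn (ch H f₀) hN z) (mx_eq (f₀ := f₀) he) (exists_res hV hf)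
  refine ⟨rename (Prod.map Fin.succ id) Φ, ?_, fun c hc => ⟨r, ?_⟩⟩
  · intro h0
    refine hΦ0 (rename_injective _ ?_ (by rw [h0, map_zero]))
    exact (Fin.succ_injective n).prodMap Function.injective_id
  · rw [eval_rename] at hc
    have h1 := hΦ _ hc
    have h2 : lin (fun j => dch H f₀ ⟨e j, hx_le (by
        rw [← he]; exact Submodule.subset_span ⟨j, rfl⟩)⟩) (c ∘ Prod.map Fin.succ id) =
        uch H f₀ heH c := by
      funext l
      apply Subtype.ext
      simp only [lin, uch, dch]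
      rw [AddSubmonoidClass.coe_finsetSum, Finset.sum_div]
      refine Finset.sum_congr rfl fun j _ => ?_
      rw [Subalgebra.coe_smul, Algebra.smul_def, Algebra.smul_def, mul_div_assoc]
      rfl
    rw [h2] at h1
    exact h1

end Chart

/-- **BC1'.** The minimum of a valuation on `m` is attained by one of the generators of a
reduction. -/
theorem val_le_of_redI {A Γ : Type*} [CommRing A] [LinearOrderedCommGroupWithZero Γ]
    (v : Valuation A Γ) (hv : ∀ a, v a ≤ 1) {m : Ideal A} (hm : ∀ a ∈ m, v a < 1) {h : ℕ}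
    {e : Fin h → A} (he : Ideal.span (Set.range e) = m) {n : ℕ} {u : Fin n → A}
    {r : ℕ} (hr : m ^ (r + 1) ≤ Ideal.span (Set.range u) * m ^ r ⊔ m ^ (r + 2)) {y : A}
    (hy : y ∈ m) : v y = 0 ∨ ∃ l, v y ≤ v (u l) := by
  classical
  by_contra hcon
  push Not at hcon
  obtain ⟨hy0, hyu⟩ := hcon
  -- the ideal of elements of value `≤ γ`
  have hle : ∀ γ : Γ, (∀ j, v (e j) ≤ γ) → ∀ x ∈ m, v x ≤ γ := by
    intro γ hγ x hx
    rw [← he] at hx
    induction hx using Submodule.span_induction with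
    | mem x hx => obtain ⟨j, rfl⟩ := hx; exact hγ j
    | zero => rw [map_zero]; exact zero_le
    | add a b _ _ ha hb => exact (v.map_add a b).trans (max_le ha hb)
    | smul a b _ hb =>
      rw [smul_eq_mul, map_mul]
      exact (mul_le_of_le_one_left zero_le (hv a)).trans hb
  have hex : ∃ j, v y ≤ v (e j) := by
    by_contra hno
    push Not at hno
    rcases Nat.eq_zero_or_pos h with h0 | h0
    · subst h0
      have h2 := hle 0 (fun j => j.elim0) y hy
      exact hy0 (le_antisymm h2 zero_le)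
    · obtain ⟨j, -, hj⟩ := Finset.exists_max_image (Finset.univ : Finset (Fin h))
        (fun j => v (e j)) ⟨⟨0, h0⟩, Finset.mem_univ _⟩
      exact (lt_irrefl _ ((hle _ (fun i => hj i (Finset.mem_univ _)) y hy).trans_lt (hno j)))
  obtain ⟨j₁, hj₁⟩ := hex
  obtain ⟨j, -, hj⟩ := Finset.exists_max_image (Finset.univ : Finset (Fin h))
    (fun j => v (e j)) ⟨j₁, Finset.mem_univ _⟩
  set μ := v (e j) with hμ
  have hej : e j ∈ m := by rw [← he]; exact Ideal.subset_span ⟨j, rfl⟩
  have hμ1 : μ < 1 := hm _ hej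
  have hyμ : v y ≤ μ := hj₁.trans (hj j₁ (Finset.mem_univ _))
  have hμ0 : 0 < μ := lt_of_lt_of_le (zero_lt_iff.2 hy0) hyμ
  have hmμ : ∀ x ∈ m, v x ≤ μ := hle μ fun i => hj i (Finset.mem_univ _)
  have hpow : ∀ i, ∀ x ∈ m ^ i, v x ≤ μ ^ i := by
    intro i
    induction i with
    | zero => intro x _; rw [pow_zero]; exact hv x
    | succ i ih =>
      intro x hx
      rw [pow_succ] at hx
      refine Submodule.mul_induction_on hx (fun a ha b hb => ?_) (fun a b ha hb => ?_)
      · rw [map_mul, pow_succ]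
        exact mul_le_mul' (ih a ha) (hmμ b hb)
      · exact (v.map_add a b).trans (max_le ha hb)
  have hJ : ∀ x ∈ Ideal.span (Set.range u), ∀ b, v b ≤ μ ^ r → v (x * b) < μ ^ (r + 1) := by
    intro x hx
    induction hx using Submodule.span_induction with
    | mem x hx =>
      obtain ⟨l, rfl⟩ := hx
      intro b hb
      rw [map_mul, pow_succ']
      have hrpos : 0 < μ ^ r := pow_pos hμ0 r
      exact (mul_le_mul_right hb _).trans_lt
        (mul_lt_mul_of_pos_right ((hyu l).trans_le hyμ) hrpos)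
    | zero => intro b _; rw [zero_mul, map_zero]; exact pow_pos hμ0 _
    | add a a' _ _ ha ha' =>
      intro b hb
      rw [add_mul]
      exact (v.map_add _ _).trans_lt (max_lt (ha b hb) (ha' b hb))
    | smul a a' _ ha' =>
      intro b hb
      have h1 : a • a' * b = a' * (a * b) := by rw [smul_eq_mul]; ring
      rw [h1]
      refine ha' _ ?_
      rw [map_mul]
      exact (mul_le_of_le_one_left zero_le (hv a)).trans hb
  have hlast : v (e j ^ (r + 1)) < μ ^ (r + 1) := by
    have h1 : e j ^ (r + 1) ∈ m ^ (r + 1) := Ideal.pow_mem_pow hej _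
    obtain ⟨a, ha, b, hb, hab⟩ := Submodule.mem_sup.1 (hr h1)
    rw [← hab]
    refine (v.map_add a b).trans_lt (max_lt ?_ ?_)
    · refine Submodule.mul_induction_on ha (fun x hx y hy => hJ x hx y (hpow r y hy))
        (fun x y hx hy => (v.map_add x y).trans_lt (max_lt hx hy))
    · refine (hpow _ b hb).trans_lt ?_
      have h2 : μ ^ (r + 2) = μ * μ ^ (r + 1) := pow_succ' _ _
      rw [h2]
      exact mul_lt_of_lt_one_left (pow_pos hμ0 _) hμ1
  rw [map_pow] at hlast
  exact lt_irrefl _ hlast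

/-- **BC1'**, for a homomorphism into a valuation ring. -/
theorem val_le_of_redI_hom {A L : Type*} [CommRing A] [Field L] (W : ValuationSubring L)
    (φ : A →+* W) {m : Ideal A} (hfg : m.FG) (hm : ∀ a ∈ m, φ a ∈ IsLocalRing.maximalIdeal W)
    {n : ℕ} {u : Fin n → A} {r : ℕ}
    (hr : m ^ (r + 1) ≤ Ideal.span (Set.range u) * m ^ r ⊔ m ^ (r + 2)) {y : A} (hy : y ∈ m) :
    φ y = 0 ∨ ∃ l, W.valuation (φ y : L) ≤ W.valuation (φ (u l) : L) := by
  obtain ⟨h, e, he⟩ := Submodule.fg_iff_exists_fin_generating_family.1 hfg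
  have := val_le_of_redI (W.valuation.comap (W.subtype.comp φ))
    (fun a => (W.valuation_le_one_iff _).2 (φ a).2)
    (fun a ha => (ValuationSubring.valuation_lt_one_iff W _).1 (hm a ha)) he hr hy
  rcases this with h0 | h1
  · left
    have h2 : W.valuation (φ y : L) = 0 := h0
    exact Subtype.ext ((map_eq_zero _).1 h2)
  · exact Or.inr h1

end Pool.Agent.TGX45
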