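import Pool.Agent.Lib.TGBC_h29.Rows
import Pool.Agent.Lib.TGL_h28.PExpDual
import Pool.Agent.Lib.TG_h33.W2

/-!
# TANK G, bridge B → C: ROW SEP (helper45)
-/

set_option autoImplicit false

namespace Pool.Agent.TGBC

universe u

variable {k K : Type u} [Field k] [Field K] [Algebra k K]

/-- **ROW SEP.** -/
theorem rowSep : RowSep k K := by
  intro hk hK n hn D f hjac
  have hess : Algebra.EssFiniteType k K := IntermediateField.fg_top_iff.1 hK
  have hdet : (Pool.Agent.TGh33.jm D f).det ≠ 0 := by
    have h1 : Pool.Agent.TGh33.jm D f =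
        (Matrix.of fun i j => D i (f j) : Matrix (Fin n) (Fin n) K).transpose := by
      ext i j
      rfl
    rw [h1, Matrix.det_transpose]
    exact hjac
  refine Pool.Agent.TGLh28.sep_of_dual (ι := Fin n) (by rw [hn, Fintype.card_fin]) f
    (Pool.Agent.TGh33.dualD D f) fun i j => ?_
  have h2 := Pool.Agent.TGh33.dualD_u D f hdet i j
  exact h2

end Pool.Agent.TGBC
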