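import Pool.Agent.Lib.TG.Basic
import Mathlib.RingTheory.Valuation.LocalSubring
import Mathlib.RingTheory.MvPolynomial.Homogeneous
import Mathlib.RingTheory.AlgebraicIndependent.TranscendenceBasis

/-!
# TANK G, block B, row BPF: base point free subspaces (helper45)

`Bpf S T`: `T ≤ S` and for every valuation ring `V ⊇ k` of `K` the minimum of `V` on `S` is
attained on `T`.  `Red S T r`: `S ^ (r + 1) ≤ T * S ^ r`.
-/

set_option autoImplicit false

namespace Pool.Agent.TG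

open Pool.Agent.LU2 (locV)

universe u

section Bpf

variable {k K : Type u} [Field k] [Field K] [Algebra k K] {V : ValuationSubring K}
  {S S₁ T : Submodule k K} {f g : K}

/-- `T` is a base point free subspace of `S`. -/
structure Bpf (S T : Submodule k K) : Prop where
  le : T ≤ S
  min : ∀ V : ValuationSubring K, Ov k V → ∃ f ∈ T, IsMin V S f

/-- `T` is a reduction of `S`. -/
def Red (S T : Submodule k K) (r : ℕ) : Prop := T ≤ S ∧ S ^ (r + 1) ≤ T * S ^ r

theorem IsMin.mono {f : K} (h : IsMin V S f) (hf : f ∈ T) (hT : T ≤ S) : IsMin V T f :=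
  ⟨hf, h.ne, fun g hg => h.div g (hT hg)⟩

/-- a minimal element of `T` is minimal in `S` if `T` is base point free in `S` -/
theorem Bpf.isMin (h : Bpf S T) (hV : Ov k V) (hf : IsMin V T f) : IsMin V S f := by
  obtain ⟨g, hg, hgS⟩ := h.min V hV
  refine ⟨h.le hf.mem, hf.ne, fun a ha => ?_⟩
  have h1 : a / f = (a / g) * (g / f) := by
    rw [div_mul_div_cancel₀ hgS.ne]
  rw [h1]
  exact V.mul_mem _ _ (hgS.div a ha) (hf.div g hg)

theorem Bpf.refl (hS : IsModel S) : Bpf S S :=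
  ⟨le_rfl, fun V hV => by
    obtain ⟨f, hf⟩ := exists_isMin (V := V) hV hS
    exact ⟨f, hf.mem, hf⟩⟩

theorem Bpf.trans {T' : Submodule k K} (h : Bpf S T) (h' : Bpf T T') : Bpf S T' :=
  ⟨h'.le.trans h.le, fun V hV => by
    obtain ⟨f, hf, hf'⟩ := h'.min V hV
    exact ⟨f, hf, h.isMin hV hf'⟩⟩

theorem Bpf.ne_bot (h : Bpf S T) : T ≠ ⊥ := by
  rintro rfl
  obtain ⟨f, hf, hf'⟩ := h.min ⊤ (fun _ => trivial)
  exact hf'.ne ((Submodule.mem_bot k).1 hf)

/-- if `S * N ≤ T * N` with `N` a model then `T` is base point free in `S` -/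
theorem Bpf.of_mul {N : Submodule k K} (hTS : T ≤ S) (hS : IsModel S) (hT : IsModel T)
    (hN : IsModel N) (h : S * N ≤ T * N) : Bpf S T := by
  refine ⟨hTS, fun V hV => ?_⟩
  obtain ⟨f, hf⟩ := exists_isMin (V := V) hV hT
  obtain ⟨g, hg⟩ := exists_isMin (V := V) hV hS
  obtain ⟨x, hx⟩ := exists_isMin (V := V) hV hN
  have h1 : IsMin V (T * N) (f * x) := hf.mul hx
  have h2 : g * x / (f * x) ∈ V := h1.div _ (h (Submodule.mul_mem_mul hg.mem hx.mem))
  rw [mul_div_mul_right _ _ hx.ne] at h2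
  refine ⟨f, hf.mem, ⟨hTS hf.mem, hf.ne, fun a ha => ?_⟩⟩
  have h3 : a / f = (a / g) * (g / f) := by
    rw [div_mul_div_cancel₀ hg.ne]
  rw [h3]
  exact V.mul_mem _ _ (hg.div a ha) h2

theorem Red.bpf {r : ℕ} (h : Red S T r) (hS : IsModel S) (hT : IsModel T) : Bpf S T :=
  Bpf.of_mul h.1 hS hT (hS.pow r) (by rw [← pow_succ']; exact h.2)

theorem Red.mul_pow {r : ℕ} (h : Red S T r) (j : ℕ) : S ^ (r + j) ≤ T ^ j * S ^ r := by
  induction j with
  | zero => simp
  | succ j ih =>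
    have h1 : S ^ (r + (j + 1)) = S ^ (r + j) * S := by rw [← pow_succ]; rfl
    calc S ^ (r + (j + 1)) = S ^ (r + j) * S := h1
      _ ≤ (T ^ j * S ^ r) * S := mul_le_mul' ih le_rfl
      _ = T ^ j * S ^ (r + 1) := by rw [mul_assoc, ← pow_succ]
      _ ≤ T ^ j * (T * S ^ r) := mul_le_mul' le_rfl h.2
      _ = T ^ (j + 1) * S ^ r := by rw [← mul_assoc, ← pow_succ]

theorem Red.trans {r r' : ℕ} {T' : Submodule k K} (h : Red S T r) (h' : Red T T' r') :
    Red S T' (r + r') := by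
  refine ⟨h'.1.trans h.1, ?_⟩
  calc S ^ (r + r' + 1) = S ^ (r + (r' + 1)) := by rw [add_assoc]
    _ ≤ T ^ (r' + 1) * S ^ r := h.mul_pow _
    _ ≤ (T' * T ^ r') * S ^ r := mul_le_mul' h'.2 le_rfl
    _ ≤ (T' * S ^ r') * S ^ r := mul_le_mul' (mul_le_mul' le_rfl
        (pow_le_pow_left' h.1 _)) le_rfl
    _ = T' * S ^ (r + r') := by rw [mul_assoc, ← pow_add, add_comm r r']

theorem Red.refl : Red S S 0 := ⟨le_rfl, by simp⟩

/-! ### integrality -/

theorem mem_ncl_of_forall {R : Subalgebra k K} {x : K}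
    (h : ∀ V : ValuationSubring K, (∀ a ∈ R, a ∈ V) → x ∈ V) : x ∈ ncl R := by
  have h1 : x ∈ (⨅ V : {V : ValuationSubring K // (R : Set K) ⊆ V.toSubring}, V.1.toSubring) := by
    rw [Subring.mem_iInf]
    rintro ⟨V, hV⟩
    exact h V fun a ha => hV ha
  rw [iInf_valuationSubring_superset] at h1
  obtain ⟨p, hp, hpx⟩ := h1
  refine mem_ncl_of_root (p.map (algebraMap (Subring.closure (R : Set K)) K)) (hp.map _)
    (fun i => ?_) ?_
  · refine le_ncl R ?_
    rw [Polynomial.coeff_map]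
    have h2 : Subring.closure (R : Set K) ≤ R.toSubring := Subring.closure_le.2 fun a ha => ha
    exact h2 (p.coeff i).2
  · rw [Polynomial.eval_map]; exact hpx

theorem isMin_of_ch {V : ValuationSubring K} (hf : f ∈ T) (h0 : f ≠ 0)
    (h : ∀ a ∈ ch T f, a ∈ V) : Ov k V ∧ IsMin V T f :=
  ⟨fun c => h _ ((ch T f).algebraMap_mem c), hf, h0, fun _ hg => h _ (div_mem_ch hg)⟩

theorem Bpf.div_mem_ncl (h : Bpf S T) (hf : f ∈ T) (h0 : f ≠ 0) (hg : g ∈ S) :
    g / f ∈ ncl (ch T f) := by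
  refine mem_ncl_of_forall fun V hV => ?_
  obtain ⟨hk, hm⟩ := isMin_of_ch hf h0 hV
  exact (h.isMin hk hm).div g hg

theorem Bpf.chN_eq (h : Bpf S T) (hf : f ∈ T) (h0 : f ≠ 0) : chN S f = chN T f := by
  refine le_antisymm ?_ (ncl_mono ?_)
  · rw [chN, chN, ← ncl_ncl (ch T f)]
    refine ncl_mono ?_
    rw [ch_le_iff]
    exact fun g hg => h.div_mem_ncl hf h0 hg
  · rw [ch_le_iff]
    exact fun g hg => div_mem_ch (h.le hg)

end Bpf

end Pool.Agent.TG
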