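import Pool.Agent.Lib.TG_h45.Bpf

/-!
# TANK G, block B, row BPF: existence of base point free tuples (helper45)
-/

set_option autoImplicit false

namespace Pool.Agent.TG

open MvPolynomial

universe u

section Exist

variable {k K : Type u} [Field k] [Field K] [Algebra k K] {V : ValuationSubring K}
  {S T : Submodule k K}

/-- `f` is a base point free tuple of `S`. -/
def BpfT {n : ℕ} (S : Submodule k K) (f : Fin (n + 1) → K) : Prop :=
  (∀ i, f i ∈ S) ∧ ∀ V : ValuationSubring K, Ov k V → ∃ i, IsMin V S (f i)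

theorem exists_isMin_span {ι : Type*} [Finite ι] (hV : Ov k V) (f : ι → K) (h : ∃ i, f i ≠ 0) :
    ∃ i, IsMin V (Submodule.span k (Set.range f)) (f i) := by
  classical
  obtain ⟨_⟩ := nonempty_fintype ι
  obtain ⟨i0, hi0⟩ := h
  obtain ⟨i, -, hi⟩ := Finset.exists_max_image Finset.univ (fun i => V.valuation (f i))
    ⟨i0, Finset.mem_univ _⟩
  have hfi : f i ≠ 0 := by
    intro h0
    have h1 := hi i0 (Finset.mem_univ _)
    simp only [h0, map_zero, nonpos_iff_eq_zero, map_eq_zero] at h1
    exact hi0 h1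
  refine ⟨i, isMin_of_span hV (Submodule.subset_span ⟨i, rfl⟩) hfi ?_⟩
  rintro _ ⟨j, rfl⟩
  rw [← V.valuation_le_one_iff, map_div₀]
  have h2 : V.valuation (f i) ≠ 0 := by simpa using hfi
  exact div_le_one_of_le₀ (hi j (Finset.mem_univ _)) zero_le

theorem bpfT_iff {n : ℕ} {f : Fin (n + 1) → K} :
    BpfT S f ↔ Bpf S (Submodule.span k (Set.range f)) := by
  constructor
  · rintro ⟨h1, h2⟩
    refine ⟨Submodule.span_le.2 ?_, fun V hV => ?_⟩
    · rintro _ ⟨i, rfl⟩
      exact h1 i
    · obtain ⟨i, hi⟩ := h2 V hV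
      exact ⟨f i, Submodule.subset_span ⟨i, rfl⟩, hi⟩
  · intro h
    refine ⟨fun i => h.le (Submodule.subset_span ⟨i, rfl⟩), fun V hV => ?_⟩
    have h0 : ∃ i, f i ≠ 0 := by
      by_contra h0
      push Not at h0
      refine h.ne_bot ?_
      rw [Submodule.span_eq_bot]
      rintro _ ⟨i, rfl⟩
      exact h0 i
    obtain ⟨i, hi⟩ := exists_isMin_span hV f h0
    exact ⟨i, h.isMin hV hi⟩

/-- monomials modulo `T * S ^ _` -/
theorem prod_sub_mem {ι : Type*} (s : ι → K) (q : ι → k) (g : K) (hg : g ∈ S)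
    (hs : ∀ i, s i ∈ S) (hT : ∀ i, s i - q i • g ∈ T) (m : Multiset ι) :
    (m.map s).prod - (m.map q).prod • g ^ m.card ∈ T * S ^ (m.card - 1) := by
  induction m using Multiset.induction with
  | empty => simp
  | cons a m ih =>
    have hpow : g ^ m.card ∈ S ^ m.card := Submodule.pow_mem_pow _ hg _
    rw [Multiset.map_cons, Multiset.prod_cons, Multiset.map_cons, Multiset.prod_cons,
      Multiset.card_cons, Nat.add_sub_cancel]
    have h1 : s a * (m.map s).prod - (q a * (m.map q).prod) • g ^ (m.card + 1) =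
        (m.map s).prod * (0 : K) + s a * ((m.map s).prod - (m.map q).prod • g ^ m.card) +
        (s a - q a • g) * ((m.map q).prod • g ^ m.card) := by
      simp only [Algebra.smul_def, map_mul, pow_succ]
      ring
    rw [h1, mul_zero, zero_add]
    refine Submodule.add_mem _ ?_ (Submodule.mul_mem_mul (hT a) (Submodule.smul_mem _ _ hpow))
    rcases Nat.eq_zero_or_pos m.card with h0 | h0
    · have : m = 0 := Multiset.card_eq_zero.1 h0
      subst this
      simp
    · have h2 : T * S ^ m.card = S * (T * S ^ (m.card - 1)) := by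
        rw [← mul_assoc, mul_comm S T, mul_assoc, ← pow_succ', Nat.sub_add_cancel h0]
      rw [h2]
      exact Submodule.mul_mem_mul (hs a) ih

theorem sum_id_eq {ι : Type*} {F : MvPolynomial ι k} {d : ℕ} (hF : F.IsHomogeneous d)
    {a : ι →₀ ℕ} (ha : a ∈ F.support) : a.sum (fun _ => id) = d := by
  have h := MvPolynomial.IsHomogeneous.degree_eq_sum_deg_support hF ha
  rw [h]
  rfl

theorem aeval_sub_mem {ι : Type*} (s : ι → K) (q : ι → k) (g : K) (hg : g ∈ S)
    (hs : ∀ i, s i ∈ S) (hT : ∀ i, s i - q i • g ∈ T) (F : MvPolynomial ι k) (d : ℕ)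
    (hF : F.IsHomogeneous d) :
    aeval s F - (eval q F) • g ^ d ∈ T * S ^ (d - 1) := by
  classical
  have h1 : aeval s F - (eval q F) • g ^ d =
      ∑ a ∈ F.support, (F.coeff a) • (((Finsupp.toMultiset a).map s).prod -
        ((Finsupp.toMultiset a).map q).prod • g ^ (Finsupp.toMultiset a).card) := by
    have hs' : ∀ a : ι →₀ ℕ, ((Finsupp.toMultiset a).map s).prod = a.prod fun i e => s i ^ e := by
      intro a
      rw [Finsupp.toMultiset_map, Finsupp.prod_toMultiset, Finsupp.prod_mapDomain_index]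
      · simp
      · intro b m₁ m₂; rw [pow_add]
    have hq' : ∀ a : ι →₀ ℕ, ((Finsupp.toMultiset a).map q).prod = a.prod fun i e => q i ^ e := by
      intro a
      rw [Finsupp.toMultiset_map, Finsupp.prod_toMultiset, Finsupp.prod_mapDomain_index]
      · simp
      · intro b m₁ m₂; rw [pow_add]
    simp only [smul_sub, Finset.sum_sub_distrib]
    congr 1
    · rw [aeval_def, eval₂_eq]
      refine Finset.sum_congr rfl fun a _ => ?_
      rw [hs', Algebra.smul_def, Finsupp.prod]
    · rw [eval_eq, Finset.sum_smul]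
      refine Finset.sum_congr rfl fun a ha => ?_
      rw [hq', Finsupp.card_toMultiset, smul_smul, Finsupp.prod]
      rw [sum_id_eq hF ha]
  rw [h1]
  refine Submodule.sum_mem _ fun a ha => Submodule.smul_mem _ _ ?_
  have h2 := prod_sub_mem (S := S) (T := T) s q g hg hs hT (Finsupp.toMultiset a)
  have h3 : (Finsupp.toMultiset a).card = d := by
    rw [Finsupp.card_toMultiset]
    exact sum_id_eq hF ha
  rw [h3] at h2 ⊢
  exact h2

/-- homogeneous relations -/
theorem exists_homog {m : ℕ} (s : Fin (m + 1) → K) (h0 : s 0 ≠ 0)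
    (h : ¬ AlgebraicIndependent k (fun i : Fin m => s i.succ / s 0)) :
    ∃ (d : ℕ) (F : MvPolynomial (Fin (m + 1)) k), F.IsHomogeneous d ∧ F ≠ 0 ∧ aeval s F = 0 := by
  classical
  rw [algebraicIndependent_iff] at h
  push Not at h
  obtain ⟨G, hG0, hG⟩ := h
  set d := G.totalDegree with hd
  refine ⟨d, ∑ a ∈ G.support, C (G.coeff a) * (X 0 ^ (d - a.degree) * ∏ i, X i.succ ^ a i),
    ?_, ?_, ?_⟩
  · refine IsHomogeneous.sum _ _ _ fun a ha => ?_
    have h1 : a.degree ≤ d := by
      rw [hd, Finsupp.degree_eq_sum]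
      have := le_totalDegree ha
      rwa [Finsupp.sum_fintype _ _ (fun _ => rfl)] at this
    have h2 : (C (G.coeff a) * (X 0 ^ (d - a.degree) * ∏ i, X i.succ ^ a i) :
        MvPolynomial (Fin (m + 1)) k).IsHomogeneous (0 + ((d - a.degree) * 1 + ∑ i, (a i) * 1)) := by
      refine (isHomogeneous_C _ _).mul (IsHomogeneous.mul ?_ ?_)
      · rw [mul_comm]; exact (isHomogeneous_X k 0).pow _
      · refine IsHomogeneous.prod _ _ _ fun i _ => ?_
        rw [mul_comm]; exact (isHomogeneous_X k i.succ).pow _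
    have h3 : 0 + ((d - a.degree) * 1 + ∑ i, (a i) * 1) = d := by
      simp only [mul_one, zero_add, ← Finsupp.degree_eq_sum]
      omega
    rwa [h3] at h2
  · intro hF
    have h4 := congrArg (aeval (Fin.cons 1 X : Fin (m + 1) → MvPolynomial (Fin m) k)) hF
    rw [map_zero, map_sum] at h4
    refine hG ?_
    rw [← h4]
    conv_lhs => rw [G.as_sum]
    refine Finset.sum_congr rfl fun a _ => ?_
    simp only [map_mul, map_pow, map_prod, aeval_X, Fin.cons_zero, Fin.cons_succ, one_pow,
      one_mul, algHom_C, algebraMap_eq]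
    rw [monomial_eq, Finsupp.prod_fintype _ _ (fun _ => pow_zero _)]
  · have h5 : aeval s (∑ a ∈ G.support, C (G.coeff a) *
        (X 0 ^ (d - a.degree) * ∏ i, X i.succ ^ a i) : MvPolynomial (Fin (m + 1)) k) =
        s 0 ^ d * aeval (fun i : Fin m => s i.succ / s 0) G := by
      conv_rhs => rw [G.as_sum, map_sum, Finset.mul_sum]
      rw [map_sum]
      refine Finset.sum_congr rfl fun a ha => ?_
      have h1 : a.degree ≤ d := by
        rw [hd, Finsupp.degree_eq_sum]
        have := le_totalDegree ha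
        rwa [Finsupp.sum_fintype _ _ (fun _ => rfl)] at this
      simp only [map_mul, map_pow, map_prod, aeval_X, algHom_C]
      rw [aeval_monomial, Finsupp.prod_fintype _ _ (fun _ => pow_zero _)]
      simp only [div_pow, Finset.prod_div_distrib, Finset.prod_pow_eq_pow_sum,
        ← Finsupp.degree_eq_sum]
      have h6 : s 0 ^ d = s 0 ^ (d - a.degree) * s 0 ^ a.degree := by
        rw [← pow_add, Nat.sub_add_cancel h1]
      rw [h6]
      have h7 : s 0 ^ a.degree ≠ 0 := pow_ne_zero _ h0
      field_simp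
    rw [h5, hG0, mul_zero]

theorem pow_le_sup {g : K} (hT : T ≤ S) (hg : g ∈ S) (h : S ≤ T ⊔ Submodule.span k {g}) (j : ℕ) :
    S ^ (j + 1) ≤ T * S ^ j ⊔ Submodule.span k {g ^ (j + 1)} := by
  induction j with
  | zero => simpa using h
  | succ j ih =>
    have h1 : S ^ (j + 1 + 1) = S * S ^ (j + 1) := pow_succ' _ _
    have h2 : Submodule.span k {g} * S ^ (j + 1) ≤
        Submodule.span k {g} * (T * S ^ j ⊔ Submodule.span k {g ^ (j + 1)}) :=
      mul_le_mul' le_rfl ih
    have h3 : Submodule.span k {g} * (T * S ^ j) ≤ T * S ^ (j + 1) := by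
      have : Submodule.span k {g} * (T * S ^ j) ≤ S * (T * S ^ j) := by
        refine mul_le_mul' ?_ le_rfl
        rw [Submodule.span_le, Set.singleton_subset_iff]
        exact hg
      refine this.trans (le_of_eq ?_)
      rw [← mul_assoc, mul_comm S T, mul_assoc, ← pow_succ']
    calc S ^ (j + 1 + 1) = S * S ^ (j + 1) := h1
      _ ≤ (T ⊔ Submodule.span k {g}) * S ^ (j + 1) := mul_le_mul' h le_rfl
      _ = T * S ^ (j + 1) ⊔ Submodule.span k {g} * S ^ (j + 1) := Submodule.sup_mul _ _ _
      _ ≤ T * S ^ (j + 1) ⊔ (Submodule.span k {g} * (T * S ^ j ⊔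
            Submodule.span k {g ^ (j + 1)})) := sup_le_sup le_rfl h2
      _ = T * S ^ (j + 1) ⊔ (Submodule.span k {g} * (T * S ^ j) ⊔
            Submodule.span k {g} * Submodule.span k {g ^ (j + 1)}) := by
          rw [Submodule.mul_sup]
      _ ≤ T * S ^ (j + 1) ⊔ Submodule.span k {g ^ (j + 1 + 1)} := by
          refine sup_le le_sup_left (sup_le (h3.trans le_sup_left) ?_)
          rw [Submodule.span_mul_span, Set.singleton_mul_singleton, ← pow_succ']
          exact le_sup_right

/-- One step of the linear Noether normalisation. -/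
theorem exists_red_step [Infinite k] (hS : IsModel S) (n : ℕ) (hn : Algebra.trdeg k K ≤ n)
    (hfr : n + 1 < Module.finrank k S) :
    ∃ (T : Submodule k K) (r : ℕ), Red S T r ∧ IsModel T ∧
      Module.finrank k T < Module.finrank k S := by
  classical
  have : Module.Finite k S := Module.Finite.iff_fg.2 hS.fg
  obtain ⟨m, hm⟩ : ∃ m, Module.finrank k S = m + 1 := ⟨Module.finrank k S - 1, by omega⟩
  let b : Module.Basis (Fin (m + 1)) k S := Module.finBasisOfFinrankEq k S hm
  let s : Fin (m + 1) → K := fun i => (b i : K)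
  have hs : ∀ i, s i ∈ S := fun i => (b i).2
  have hs0 : s 0 ≠ 0 := fun h => b.ne_zero 0 (Subtype.ext h)
  have hnot : ¬ AlgebraicIndependent k (fun i : Fin m => s i.succ / s 0) := by
    intro h
    have h1 := h.lift_cardinalMk_le_trdeg
    rw [Cardinal.mk_fin, Cardinal.lift_natCast] at h1
    have h2 : ((m : ℕ) : Cardinal) ≤ n := by
      refine h1.trans ?_
      have := Cardinal.lift_le.{0}.2 hn
      simpa using this
    have h3 : m ≤ n := by exact_mod_cast h2
    omega
  obtain ⟨d, F, hFh, hF0, hFs⟩ := exists_homog s hs0 hnot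
  obtain ⟨q, hq⟩ : ∃ q : Fin (m + 1) → k, eval q F ≠ 0 := by
    by_contra hcon
    push Not at hcon
    exact hF0 (MvPolynomial.funext fun q => by rw [hcon q, map_zero])
  have hd : d ≠ 0 := by
    rintro rfl
    have h1 : F.totalDegree = 0 := hFh.totalDegree hF0
    rw [totalDegree_eq_zero_iff_eq_C] at h1
    rw [h1] at hFs hF0
    rw [algHom_C, map_eq_zero] at hFs
    exact hF0 (by rw [hFs, C_0])
  obtain ⟨i0, hi0⟩ : ∃ i, q i ≠ 0 := by
    by_contra hcon
    push Not at hcon
    have hq0 : q = 0 := funext hcon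
    have h2 : eval q F = F.coeff 0 := by
      rw [hq0, ← constantCoeff_eq]
      exact eval₂Hom_zero_apply (RingHom.id k) F
    rw [h2] at hq
    have h3 := hFh hq
    rw [map_zero] at h3
    exact hd h3.symm
  set g : K := (q i0)⁻¹ • s i0 with hgdef
  have hg : g ∈ S := S.smul_mem _ (hs i0)
  let T : Submodule k K := Submodule.span k (Set.range fun i => s i - q i • g)
  have hT : ∀ i, s i - q i • g ∈ T := fun i => Submodule.subset_span ⟨i, rfl⟩
  have hTS : T ≤ S := by
    rw [Submodule.span_le]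
    rintro _ ⟨i, rfl⟩
    exact S.sub_mem (hs i) (S.smul_mem _ hg)
  have hSspan : S = Submodule.span k (Set.range s) := by
    have h1 := b.span_eq
    have h2 := congrArg (Submodule.map S.subtype) h1
    rw [Submodule.map_span, Submodule.map_top, Submodule.range_subtype, ← Set.range_comp] at h2
    exact h2.symm
  have hsup : S ≤ T ⊔ Submodule.span k {g} := by
    conv_lhs => rw [hSspan]
    rw [Submodule.span_le]
    rintro _ ⟨i, rfl⟩
    have h1 : s i = (s i - q i • g) + q i • g := by ring
    rw [h1]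
    exact Submodule.add_mem_sup (hT i) (Submodule.smul_mem _ _ (Submodule.mem_span_singleton_self g))
  have hmain := aeval_sub_mem (S := S) (T := T) s q g hg hs hT F d hFh
  rw [hFs, zero_sub, neg_mem_iff] at hmain
  have hgd : g ^ d ∈ T * S ^ (d - 1) := by
    have := Submodule.smul_mem _ (eval q F)⁻¹ hmain
    rwa [smul_smul, inv_mul_cancel₀ hq, one_smul] at this
  have hred : Red S T (d - 1) := by
    refine ⟨hTS, ?_⟩
    refine (pow_le_sup hTS hg hsup (d - 1)).trans (sup_le le_rfl ?_)
    rw [Nat.sub_add_cancel (Nat.one_le_iff_ne_zero.2 hd), Submodule.span_le,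
      Set.singleton_subset_iff]
    exact hgd
  have hTne : T ≠ ⊥ := by
    intro h0
    have h1 := hred.2
    rw [h0, Submodule.bot_mul, le_bot_iff] at h1
    exact (hS.pow (d - 1 + 1)).ne h1
  refine ⟨T, d - 1, hred, ⟨Submodule.fg_span (Set.finite_range _), hTne⟩, ?_⟩
  refine Submodule.finrank_lt_finrank_of_lt (lt_of_le_of_ne hTS ?_)
  intro hTS'
  let z : S →ₗ[k] k := b.constr k q
  have hz : T ≤ (LinearMap.ker z).map S.subtype := by
    rw [Submodule.span_le]
    rintro _ ⟨i, rfl⟩
    refine ⟨b i - q i • ((q i0)⁻¹ • b i0), ?_, ?_⟩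
    · rw [SetLike.mem_coe, LinearMap.mem_ker, map_sub, map_smul, map_smul, b.constr_basis,
        b.constr_basis, smul_eq_mul, smul_eq_mul, inv_mul_cancel₀ hi0, mul_one, sub_self]
    · simp [s, hgdef]
  have hgT : g ∈ T := by rw [hTS']; exact hg
  obtain ⟨x, hx, hxg⟩ := hz hgT
  have hx' : x = (q i0)⁻¹ • b i0 := Subtype.ext (by rw [← Submodule.subtype_apply, hxg]; rfl)
  rw [SetLike.mem_coe, LinearMap.mem_ker, hx', map_smul, b.constr_basis, smul_eq_mul,
    inv_mul_cancel₀ hi0] at hx
  exact one_ne_zero hx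

end Exist

end Pool.Agent.TG
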