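import Pool.Agent.Lib.TG_h45.Bpf2

/-!
# TANK G, block B, row BPF: existence, openness, algebraic independence (helper45)
-/

set_option autoImplicit false

namespace Pool.Agent.TG

open MvPolynomial

universe u

section Exist

variable {k K : Type u} [Field k] [Field K] [Algebra k K] {V : ValuationSubring K}
  {S T : Submodule k K}

theorem exists_red [Infinite k] (n : ℕ) (hn : Algebra.trdeg k K ≤ n) :
    ∀ (N : ℕ) (S : Submodule k K), IsModel S → Module.finrank k S ≤ N →
      ∃ (T : Submodule k K) (r : ℕ), Red S T r ∧ IsModel T ∧ Module.finrank k T ≤ n + 1 := by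
  intro N
  induction N with
  | zero =>
    intro S hS hN
    exact ⟨S, 0, Red.refl, hS, hN.trans (Nat.zero_le _)⟩
  | succ N ih =>
    intro S hS hN
    by_cases h : n + 1 < Module.finrank k S
    · obtain ⟨T, r, hT, hTm, hfr⟩ := exists_red_step hS n hn h
      obtain ⟨T', r', hT', hTm', hfr'⟩ := ih T hTm (by omega)
      exact ⟨T', r + r', hT.trans hT', hTm', hfr'⟩
    · exact ⟨S, 0, Red.refl, hS, not_lt.1 h⟩

theorem exists_tuple (hT : T.FG) {n : ℕ} (h : Module.finrank k T ≤ n) :
    ∃ f : Fin n → K, Submodule.span k (Set.range f) = T := by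
  classical
  have : Module.Finite k T := Module.Finite.iff_fg.2 hT
  let b := Module.finBasis k T
  refine ⟨fun i => if h' : (i : ℕ) < Module.finrank k T then (b ⟨i, h'⟩ : K) else 0,
    le_antisymm ?_ ?_⟩
  · rw [Submodule.span_le]
    rintro _ ⟨i, rfl⟩
    dsimp only
    split_ifs with h'
    · exact (b ⟨i, h'⟩).2
    · exact T.zero_mem
  · have h1 := congrArg (Submodule.map T.subtype) b.span_eq
    rw [Submodule.map_span, Submodule.map_top, Submodule.range_subtype, ← Set.range_comp] at h1
    refine h1.symm.le.trans ?_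
    rw [Submodule.span_le]
    rintro _ ⟨i, rfl⟩
    refine Submodule.subset_span ⟨⟨i, lt_of_lt_of_le i.2 h⟩, ?_⟩
    simp

/-- Existence of base point free tuples. -/
theorem exists_redT [Infinite k] (hS : IsModel S) (n : ℕ) (hn : Algebra.trdeg k K ≤ n) :
    ∃ (f : Fin (n + 1) → K) (r : ℕ), Red S (Submodule.span k (Set.range f)) r ∧
      IsModel (Submodule.span k (Set.range f)) := by
  obtain ⟨T, r, hT, hTm, hfr⟩ := exists_red n hn _ S hS le_rfl
  obtain ⟨f, hf⟩ := exists_tuple hTm.fg hfr
  exact ⟨f, r, by rw [hf]; exact hT, by rw [hf]; exact hTm⟩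

theorem exists_bpfT [Infinite k] (hS : IsModel S) (n : ℕ) (hn : Algebra.trdeg k K ≤ n) :
    ∃ f : Fin (n + 1) → K, BpfT S f := by
  obtain ⟨f, r, hf, hfm⟩ := exists_redT hS n hn
  exact ⟨f, bpfT_iff.2 (hf.bpf hS hfm)⟩

/-! ### openness -/

/-- The linear combinations of `s` with coefficients `c`. -/
def comb {m n : ℕ} (s : Fin m → K) (c : Fin n × Fin m → k) (i : Fin n) : K :=
  ∑ j, c (i, j) • s j

theorem comb_mem {m n : ℕ} {s : Fin m → K} (hs : ∀ j, s j ∈ S) (c : Fin n × Fin m → k)
    (i : Fin n) : comb s c i ∈ S :=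
  Submodule.sum_mem _ fun j _ => S.smul_mem _ (hs j)

theorem exists_comb {m n : ℕ} {s : Fin m → K} (hs : Submodule.span k (Set.range s) = S)
    {f : Fin n → K} (hf : ∀ i, f i ∈ S) : ∃ c : Fin n × Fin m → k, comb s c = f := by
  have h : ∀ i, ∃ a : Fin m → k, ∑ j, a j • s j = f i := fun i => by
    have := hf i
    rw [← hs, Submodule.mem_span_range_iff_exists_fun] at this
    exact this
  choose a ha using h
  exact ⟨fun x => a x.1 x.2, funext fun i => ha i⟩

/-- The reductions generated by `n + 1` elements form an open set. -/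
theorem exists_poly_red [Infinite k] (hS : IsModel S) (n : ℕ) (hn : Algebra.trdeg k K ≤ n)
    {m : ℕ} (s : Fin m → K) (hs : Submodule.span k (Set.range s) = S) :
    ∃ (r : ℕ) (Φ : MvPolynomial (Fin (n + 1) × Fin m) k), Φ ≠ 0 ∧ ∀ c, eval c Φ ≠ 0 →
      Red S (Submodule.span k (Set.range (comb s c))) r := by
  classical
  obtain ⟨f0, r, hf0, hf0m⟩ := exists_redT hS n hn
  obtain ⟨c0, hc0⟩ := exists_comb hs (fun i => hf0.1 (Submodule.subset_span ⟨i, rfl⟩))
  have hsS : ∀ j, s j ∈ S := fun j => by rw [← hs]; exact Submodule.subset_span ⟨j, rfl⟩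
  have : Module.Finite k ↥(S ^ r) := Module.Finite.iff_fg.2 (hS.pow r).fg
  have : Module.Finite k ↥(S ^ (r + 1)) := Module.Finite.iff_fg.2 (hS.pow (r + 1)).fg
  obtain ⟨M', bb, hb⟩ : ∃ (M' : ℕ) (bb : Fin M' → K), Submodule.span k (Set.range bb) = S ^ r := by
    obtain ⟨f, hf⟩ := exists_tuple (hS.pow r).fg le_rfl
    exact ⟨_, f, hf⟩
  have hbS : ∀ l, bb l ∈ S ^ r := fun l => by rw [← hb]; exact Submodule.subset_span ⟨l, rfl⟩
  let e := Module.finBasis k ↥(S ^ (r + 1))
  let u : Fin m → Fin M' → ↥(S ^ (r + 1)) := fun j l =>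
    ⟨s j * bb l, by rw [pow_succ']; exact Submodule.mul_mem_mul (hsS j) (hbS l)⟩
  let w : (Fin (n + 1) × Fin m → k) → (Fin (n + 1) × Fin M') → ↥(S ^ (r + 1)) := fun c x => ∑ j, c (x.1, j) • u j x.2
  have hw : ∀ c x, (w c x : K) = comb s c x.1 * bb x.2 := by
    intro c x
    simp only [w, u, comb, Submodule.coe_sum, Submodule.coe_smul, Finset.sum_mul, smul_mul_assoc]
  have hspan : ∀ c, Submodule.map (S ^ (r + 1)).subtype (Submodule.span k (Set.range (w c))) =
      Submodule.span k (Set.range (comb s c)) * S ^ r := by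
    intro c
    rw [Submodule.map_span, ← Set.range_comp, ← hb, Submodule.span_mul_span]
    congr 1
    ext y
    simp only [Set.mem_range, Function.comp_apply, Submodule.subtype_apply, Set.mem_mul, hw,
      Prod.exists, exists_exists_eq_and]
  have htop : Submodule.span k (Set.range (w c0)) = ⊤ := by
    refine top_le_iff.1 ?_
    rw [← Submodule.map_le_map_iff_of_injective (S ^ (r + 1)).injective_subtype, hspan,
      Submodule.map_top, Submodule.range_subtype, hc0]
    exact hf0.2
  obtain ⟨κ, a, ha, hspa, hli⟩ := exists_linearIndependent' k (w c0)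
  let b' : Module.Basis κ k ↥(S ^ (r + 1)) := Module.Basis.mk hli (by rw [hspa, htop])
  have : Finite κ := Module.Finite.finite_basis b'
  obtain ⟨_⟩ := nonempty_fintype κ
  let σ : Fin (Module.finrank k ↥(S ^ (r + 1))) ≃ κ := e.indexEquiv b'
  let ρ := fun i => a (σ i)
  let M : Matrix (Fin (Module.finrank k ↥(S ^ (r + 1)))) (Fin (Module.finrank k ↥(S ^ (r + 1))))
      (MvPolynomial (Fin (n + 1) × Fin m) k) := fun t i =>
    ∑ j, C (e.repr (u j (ρ i).2) t) * X ((ρ i).1, j)
  have hM : ∀ c, eval c M.det = e.det (fun i => w c (ρ i)) := by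
    intro c
    rw [Module.Basis.det_apply, RingHom.map_det]
    congr 1
    ext t i
    simp only [RingHom.mapMatrix_apply, Matrix.map_apply, M, map_sum, map_mul, eval_C, eval_X,
      Module.Basis.toMatrix_apply, w, map_smul, Finsupp.coe_finsetSum, Finset.sum_apply,
      Finsupp.smul_apply, smul_eq_mul]
    exact Finset.sum_congr rfl fun j _ => mul_comm _ _
  refine ⟨r, M.det, ?_, fun c hc => ⟨?_, ?_⟩⟩
  · intro h0
    have h1 := hM c0
    rw [h0, map_zero] at h1
    have h2 : e.det (fun i => w c0 (ρ i)) ≠ 0 := by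
      have h3 : (fun i => w c0 (ρ i)) = b'.reindex σ.symm := by
        ext i
        simp [b', ρ]
      rw [h3]
      exact (e.isUnit_det _).ne_zero
    exact h2 h1.symm
  · rw [Submodule.span_le]
    rintro _ ⟨i, rfl⟩
    exact comb_mem hsS c i
  · rw [hM] at hc
    have h1 := ((Module.Basis.is_basis_iff_det e).2 (isUnit_iff_ne_zero.2 hc)).2
    have h2 : Submodule.span k (Set.range (w c)) = ⊤ := by
      rw [← top_le_iff, ← h1]
      refine Submodule.span_mono ?_
      rintro _ ⟨i, rfl⟩
      exact ⟨ρ i, rfl⟩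
    rw [← hspan c, h2, Submodule.map_top, Submodule.range_subtype]

end Exist

end Pool.Agent.TG
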