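import Pool.Agent.Lib.TG_h45.Bpf4

/-!
# TANK G, block B, row BPF: base point free tuples are transcendence bases (helper45)
-/

set_option autoImplicit false

namespace Pool.Agent.TG

open MvPolynomial

universe u

section AlgInd

variable {k K : Type u} [Field k] [Field K] [Algebra k K] {V : ValuationSubring K}
  {S T : Submodule k K}

theorem mem_adjoin_of_mem_span {n : ℕ} {f : Fin (n + 1) → K} {j : Fin (n + 1)} {g : K}
    (hg : g ∈ Submodule.span k (Set.range f)) :
    g / f j ∈ IntermediateField.adjoin k (Set.range fun i => f i / f j) := by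
  obtain ⟨c, rfl⟩ := (Submodule.mem_span_range_iff_exists_fun k).1 hg
  rw [Finset.sum_div]
  refine sum_mem fun i _ => ?_
  rw [Algebra.smul_def, mul_div_assoc]
  exact mul_mem (IntermediateField.algebraMap_mem _ _)
    (IntermediateField.subset_adjoin _ _ ⟨i, rfl⟩)

/-- `K` is algebraic over the field generated by the ratios of a base point free tuple. -/
theorem BpfT.alg {n : ℕ} {f : Fin (n + 1) → K} (hf : BpfT S f) (hfin : Fin' S) {j : Fin (n + 1)}
    (hj : f j ≠ 0) :
    Algebra.IsAlgebraic (IntermediateField.adjoin k (Set.range fun i => f i / f j)) K := by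
  set L := IntermediateField.adjoin k (Set.range fun i => f i / f j) with hL
  have hB := bpfT_iff.1 hf
  have h1 : ∀ g ∈ S, IsAlgebraic L (g / f j) := by
    intro g hg
    have h2 := hB.div_mem_ncl (Submodule.subset_span ⟨j, rfl⟩) hj hg
    have hle : ch (Submodule.span k (Set.range f)) (f j) ≤ L.toSubalgebra := by
      rw [ch_le_iff]
      exact fun g hg => mem_adjoin_of_mem_span hg
    have h3 : g / f j ∈ ncl L.toSubalgebra := ncl_mono hle h2
    have h4 : IsIntegral L (g / f j) := h3
    exact h4.isAlgebraic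
  let E := algebraicClosure L K
  have h5 : IntermediateField.adjoin k {x : K | ∃ f ∈ S, ∃ g ∈ S, x = g / f} ≤
      E.restrictScalars k := by
    rw [IntermediateField.adjoin_le_iff]
    rintro _ ⟨a, ha, b, hb, rfl⟩
    change b / a ∈ E
    have h6 : b / a = (b / f j) / (a / f j) := by
      rw [div_div_div_cancel_right₀ hj]
    rw [h6]
    exact div_mem (mem_algebraicClosure_iff.2 (h1 b hb))
      (mem_algebraicClosure_iff.2 (h1 a ha))
  have h6 : Algebra.IsAlgebraic E K := by
    refine ⟨fun x => ?_⟩
    have h7 : IsAlgebraic (IntermediateField.adjoin k {x : K | ∃ f ∈ S, ∃ g ∈ S, x = g / f}) x :=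
      hfin.1 x
    obtain ⟨p, hp, hpx⟩ := h7
    refine ⟨p.map (IntermediateField.inclusion h5).toRingHom, ?_, ?_⟩
    · rw [Ne, Polynomial.map_eq_zero_iff]
      · exact hp
      · exact (IntermediateField.inclusion h5).toRingHom.injective
    · rw [Polynomial.aeval_def, Polynomial.eval₂_map]
      exact hpx
  exact Algebra.IsAlgebraic.trans L E K

theorem BpfT.ne_zero {n : ℕ} {f : Fin (n + 1) → K} (hf : BpfT S f) (hfin : Fin' S)
    (hn : (n : Cardinal) ≤ Algebra.trdeg k K) (i : Fin (n + 1)) : f i ≠ 0 := by
  classical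
  intro hi
  obtain ⟨j, hj⟩ : ∃ j, f j ≠ 0 := by
    obtain ⟨j, hj⟩ := hf.2 ⊤ (fun _ => trivial)
    exact ⟨j, hj.ne⟩
  have hij : i ≠ j := by rintro rfl; exact hj hi
  have halg := hf.alg hfin hj
  let s : Finset K := ((Finset.univ.erase i).erase j).image fun l => f l / f j
  have hs : IntermediateField.adjoin k (Set.range fun l => f l / f j) ≤
      IntermediateField.adjoin k (s : Set K) := by
    rw [IntermediateField.adjoin_le_iff]
    rintro _ ⟨l, rfl⟩
    dsimp only
    by_cases h1 : l = i
    · rw [h1, hi, zero_div]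
      exact zero_mem _
    by_cases h2 : l = j
    · rw [h2, div_self hj]
      exact one_mem _
    refine IntermediateField.subset_adjoin _ _ ?_
    rw [Finset.mem_coe, Finset.mem_image]
    exact ⟨l, Finset.mem_erase.2 ⟨h2, Finset.mem_erase.2 ⟨h1, Finset.mem_univ _⟩⟩, rfl⟩
  have halg2 : Algebra.IsAlgebraic (IntermediateField.adjoin k (s : Set K)) K := by
    refine ⟨fun x => ?_⟩
    obtain ⟨p, hp, hpx⟩ := halg.1 x
    refine ⟨p.map (IntermediateField.inclusion hs).toRingHom, ?_, ?_⟩
    · rw [Ne, Polynomial.map_eq_zero_iff]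
      · exact hp
      · exact (IntermediateField.inclusion hs).toRingHom.injective
    · rw [Polynomial.aeval_def, Polynomial.eval₂_map]
      exact hpx
  have halg3 : Algebra.IsAlgebraic (Algebra.adjoin k (s : Set K)) K := by
    open scoped IntermediateField.algebraAdjoinAdjoin in
    exact (IsFractionRing.comap_isAlgebraic_iff (A := Algebra.adjoin k (s : Set K))
      (K := IntermediateField.adjoin k (s : Set K)) (C := K)).2 halg2
  have h1 := Algebra.IsAlgebraic.trdeg_le_cardinalMk k (s : Set K) (A := K)
  have h2 : s.card ≤ n - 1 := by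
    refine Finset.card_image_le.trans ?_
    rw [Finset.card_erase_of_mem, Finset.card_erase_of_mem (Finset.mem_univ _), Finset.card_univ,
      Fintype.card_fin]
    · omega
    · exact Finset.mem_erase.2 ⟨hij.symm, Finset.mem_univ _⟩
  have h3 : (n : Cardinal) ≤ (s.card : ℕ) := by
    refine hn.trans (h1.trans (le_of_eq ?_))
    simp
  have h4 : n ≤ s.card := by exact_mod_cast h3
  have h5 : n ≠ 0 := by
    rintro rfl
    exact hij (Fin.ext (by omega))
  omega

/-- hypotheses of `fin_generic` -/
theorem BpfT.alg0 {n : ℕ} {f : Fin (n + 1) → K} (hf : BpfT S f) (hfin : Fin' S)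
    (h0 : f 0 ≠ 0) :
    Algebra.IsAlgebraic
      (IntermediateField.adjoin k (Set.range fun i : Fin n => f i.succ / f 0)) K := by
  have halg := hf.alg hfin h0
  have hs : IntermediateField.adjoin k (Set.range fun l => f l / f 0) ≤
      IntermediateField.adjoin k (Set.range fun i : Fin n => f i.succ / f 0) := by
    rw [IntermediateField.adjoin_le_iff]
    rintro _ ⟨l, rfl⟩
    dsimp only
    refine Fin.cases ?_ (fun l => ?_) l
    · rw [div_self h0]
      exact one_mem _
    · exact IntermediateField.subset_adjoin _ _ ⟨l, rfl⟩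
  refine ⟨fun x => ?_⟩
  obtain ⟨p, hp, hpx⟩ := halg.1 x
  refine ⟨p.map (IntermediateField.inclusion hs).toRingHom, ?_, ?_⟩
  · rw [Ne, Polynomial.map_eq_zero_iff]
    · exact hp
    · exact (IntermediateField.inclusion hs).toRingHom.injective
  · rw [Polynomial.aeval_def, Polynomial.eval₂_map]
    exact hpx

theorem BpfT.isTranscendenceBasis {n : ℕ} {f : Fin (n + 1) → K} (hf : BpfT S f) (hfin : Fin' S)
    (hn : Algebra.trdeg k K = n) :
    IsTranscendenceBasis k (fun i : Fin n => f i.succ / f 0) := by
  have halg := hf.alg0 hfin (hf.ne_zero hfin hn.ge 0)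
  have halg3 : Algebra.IsAlgebraic
      (Algebra.adjoin k (Set.range fun i : Fin n => f i.succ / f 0)) K := by
    open scoped IntermediateField.algebraAdjoinAdjoin in
    exact (IsFractionRing.comap_isAlgebraic_iff
      (A := Algebra.adjoin k (Set.range fun i : Fin n => f i.succ / f 0))
      (K := IntermediateField.adjoin k (Set.range fun i : Fin n => f i.succ / f 0))
      (C := K)).2 halg
  refine Algebra.IsAlgebraic.isTranscendenceBasis_of_lift_le_trdeg_of_finite k
    (fun i : Fin n => f i.succ / f 0) ?_
  rw [hn]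
  simp

theorem BpfT.algInd {n : ℕ} {f : Fin (n + 1) → K} (hf : BpfT S f) (hfin : Fin' S)
    (hn : Algebra.trdeg k K = n) :
    AlgebraicIndependent k (fun i : Fin n => f i.succ / f 0) :=
  (hf.isTranscendenceBasis hfin hn).1

end AlgInd

end Pool.Agent.TG
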